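import Mathlib

namespace Pool.Agent.R155.Harm

open Finset

/-- The columns `col K m a k t`, `t = 0, 1, …`: a rounded line of slope `K + k/m`. -/
def col (K m a k t : ℕ) : ℕ := a + K * t + (k * t) / m

lemma floor_card (m s t N : ℕ) (hm : 0 < m) (hst : s < t) (htm : t < m) (c : ℤ) :
    ((range N).filter (fun k => ((k * t / m : ℕ) : ℤ) - ((k * s / m : ℕ) : ℤ) = c)).card * (t - s)
      ≤ 3 * m := by
  classical
  set A := (range N).filter (fun k => ((k * t / m : ℕ) : ℤ) - ((k * s / m : ℕ) : ℤ) = c) with hA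
  rcases A.eq_empty_or_nonempty with h0 | h0
  · rw [h0]; simp
  · have hx := A.min'_mem h0
    have hy := A.max'_mem h0
    set x := A.min' h0 with hxdef
    set y := A.max' h0 with hydef
    have hxy : x ≤ y := A.min'_le y hy
    have hsub : A ⊆ Icc x y := by
      intro z hz
      rw [mem_Icc]
      exact ⟨A.min'_le z hz, A.le_max' z hz⟩
    have hcard : A.card ≤ y + 1 - x := by
      have := card_le_card hsub
      rwa [Nat.card_Icc] at this
    rw [hA, mem_filter] at hx hy
    have e1 := hx.2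
    have e2 := hy.2
    have a1 : m * (y * t / m) ≤ y * t := Nat.mul_div_le _ _
    have a2 : y * t < m * (y * t / m) + m := by
      have := Nat.lt_mul_div_succ (y * t) hm
      linarith [this, mul_add m (y * t / m) 1]
    have a3 : m * (y * s / m) ≤ y * s := Nat.mul_div_le _ _
    have a4 : y * s < m * (y * s / m) + m := by
      have := Nat.lt_mul_div_succ (y * s) hm
      linarith [this, mul_add m (y * s / m) 1]
    have b1 : m * (x * t / m) ≤ x * t := Nat.mul_div_le _ _
    have b2 : x * t < m * (x * t / m) + m := by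
      have := Nat.lt_mul_div_succ (x * t) hm
      linarith [this, mul_add m (x * t / m) 1]
    have b3 : m * (x * s / m) ≤ x * s := Nat.mul_div_le _ _
    have b4 : x * s < m * (x * s / m) + m := by
      have := Nat.lt_mul_div_succ (x * s) hm
      linarith [this, mul_add m (x * s / m) 1]
    -- pass to integers
    obtain ⟨d, hd⟩ := Nat.exists_eq_add_of_le hxy
    obtain ⟨δ, hδ⟩ := Nat.exists_eq_add_of_lt hst
    have hδ' : t - s = δ + 1 := by omega
    rw [hδ']
    have hc' : A.card ≤ d + 1 := by omega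
    have key : d * (δ + 1) < 2 * m := by
      have h1 : ((y * t : ℕ) : ℤ) - (y * s : ℕ) - (x * t : ℕ) + (x * s : ℕ) < 2 * m := by
        have a1' : (m : ℤ) * ((y * t / m : ℕ) : ℤ) ≤ ((y * t : ℕ) : ℤ) := by exact_mod_cast a1
        have a2' : ((y * t : ℕ) : ℤ) < (m : ℤ) * ((y * t / m : ℕ) : ℤ) + m := by exact_mod_cast a2
        have a3' : (m : ℤ) * ((y * s / m : ℕ) : ℤ) ≤ ((y * s : ℕ) : ℤ) := by exact_mod_cast a3
        have b1' : (m : ℤ) * ((x * t / m : ℕ) : ℤ) ≤ ((x * t : ℕ) : ℤ) := by exact_mod_cast b1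
        have b4' : ((x * s : ℕ) : ℤ) < (m : ℤ) * ((x * s / m : ℕ) : ℤ) + m := by exact_mod_cast b4
        have f1 : (m : ℤ) * ((y * t / m : ℕ) : ℤ) - m * ((y * s / m : ℕ) : ℤ) = m * c := by
          rw [← e2]; ring
        have f2 : (m : ℤ) * ((x * t / m : ℕ) : ℤ) - m * ((x * s / m : ℕ) : ℤ) = m * c := by
          rw [← e1]; ring
        linarith
      have h2 : ((d * (δ + 1) : ℕ) : ℤ) =
          ((y * t : ℕ) : ℤ) - (y * s : ℕ) - (x * t : ℕ) + (x * s : ℕ) := by
        rw [hd, hδ]; push_cast; ring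
      have h3 : ((d * (δ + 1) : ℕ) : ℤ) < ((2 * m : ℕ) : ℤ) := by
        rw [h2]; push_cast; push_cast at h1; exact h1
      exact_mod_cast h3
    have : A.card * (δ + 1) ≤ (d + 1) * (δ + 1) := Nat.mul_le_mul_right _ hc'
    have e3 : (d + 1) * (δ + 1) = d * (δ + 1) + (δ + 1) := by ring
    have : δ + 1 ≤ m := by omega
    omega

lemma col_lt {K m a k t : ℕ} (ha : a < 2 * K * m) (hk : k < K * m)
    (ht : t < m) : col K m a k t < 4 * K * m := by
  unfold col
  have h1 : k * t / m ≤ K * t := by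
    apply Nat.div_le_of_le_mul
    calc k * t ≤ (K * m) * t := Nat.mul_le_mul_right _ hk.le
      _ = m * (K * t) := by ring
  have h2 : K * t ≤ K * m := Nat.mul_le_mul_left _ ht.le
  have h3 : 4 * K * m = 2 * K * m + K * m + K * m := by ring
  omega

lemma col_strict {K m a k s t : ℕ} (hK : 0 < K) (hst : s < t) :
    col K m a k s < col K m a k t := by
  unfold col
  have h1 : k * s / m ≤ k * t / m := Nat.div_le_div_right (Nat.mul_le_mul_left _ hst.le)
  have h2 : K * s < K * t := Nat.mul_lt_mul_of_pos_left hst hK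
  omega

lemma pair_count (m K : ℕ) (hm : 0 < m) (hK : 0 < K) (β : ℕ → ℤ)
    (hβ : ∀ i < 4 * K * m, ∀ j < 4 * K * m, β i = β j → i = j)
    (s t : ℕ) (hst : s < t) (htm : t < m) (e : ℤ) :
    (((range (2 * K * m)) ×ˢ (range (K * m))).filter
      (fun p => ((t : ℤ) + β (col K m p.1 p.2 t)) - ((s : ℤ) + β (col K m p.1 p.2 s)) = e)).card
        * (t - s) ≤ 12 * K * m * m := by
  classical
  set F := ((range (2 * K * m)) ×ˢ (range (K * m))).filter
      (fun p => ((t : ℤ) + β (col K m p.1 p.2 t)) - ((s : ℤ) + β (col K m p.1 p.2 s)) = e) with hF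
  have hmaps : ∀ p ∈ F, col K m p.1 p.2 s ∈ range (4 * K * m) := by
    intro p hp
    rw [hF, mem_filter, mem_product, mem_range, mem_range] at hp
    rw [mem_range]
    exact col_lt hp.1.1 hp.1.2 (by omega)
  have hsum := card_eq_sum_card_fiberwise hmaps
  rw [hsum, sum_mul]
  have hfib : ∀ j ∈ range (4 * K * m),
      ({p ∈ F | col K m p.1 p.2 s = j}).card * (t - s) ≤ 3 * m := by
    intro j hj
    rcases ({p ∈ F | col K m p.1 p.2 s = j}).eq_empty_or_nonempty with h0 | ⟨p0, hp0⟩
    · rw [h0]; simp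
    · rw [mem_filter, hF, mem_filter, mem_product, mem_range, mem_range] at hp0
      obtain ⟨⟨⟨ha0, hk0⟩, he0⟩, hj0⟩ := hp0
      set c : ℤ := ((p0.2 * t / m : ℕ) : ℤ) - ((p0.2 * s / m : ℕ) : ℤ) with hc
      have hle := floor_card m s t (K * m) hm hst htm c
      refine le_trans (Nat.mul_le_mul_right _ ?_) hle
      refine card_le_card_of_injOn (fun p => p.2) ?_ ?_
      · intro p hp
        rw [mem_coe, mem_filter, hF, mem_filter, mem_product, mem_range, mem_range] at hp
        obtain ⟨⟨⟨ha, hk⟩, he⟩, hj⟩ := hp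
        rw [mem_coe, mem_filter, mem_range]
        refine ⟨hk, ?_⟩
        show ((p.2 * t / m : ℕ) : ℤ) - ((p.2 * s / m : ℕ) : ℤ) = c
        have hb : β (col K m p.1 p.2 t) = β (col K m p0.1 p0.2 t) := by
          rw [hj] at he; rw [hj0] at he0; linarith
        have hcol := hβ _ (col_lt ha hk htm) _ (col_lt ha0 hk0 htm) hb
        have hcol2 : col K m p.1 p.2 s = col K m p0.1 p0.2 s := by rw [hj, hj0]
        unfold col at hcol hcol2
        rw [hc]
        omega
      · intro p hp p' hp' hpp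
        rw [mem_coe, mem_filter] at hp hp'
        have h1 := hp.2
        have h2 := hp'.2
        simp only at hpp
        unfold col at h1 h2
        rw [hpp] at h1
        have : p.1 = p'.1 := by omega
        exact Prod.ext this hpp
  calc ∑ j ∈ range (4 * K * m), ({p ∈ F | col K m p.1 p.2 s = j}).card * (t - s)
      ≤ ∑ _j ∈ range (4 * K * m), 3 * m := sum_le_sum hfib
    _ = 12 * K * m * m := by rw [sum_const, card_range, smul_eq_mul]; ring

end Pool.Agent.R155.Harm
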