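import Mathlib
import Pool.Agent.R155.HarmA

namespace Pool.Agent.R155.Harm

open Finset

/-- The weight of the `t`-th cell of the line. -/
def W (K m a k : ℕ) (β : ℕ → ℤ) (t : ℕ) : ℤ := (t : ℤ) + β (col K m a k t)

/-- `c |x|` for `|x| ≤ M` and `0` otherwise. -/
noncomputable def pot (M : ℕ) (c : ℕ → ℝ) (x : ℤ) : ℝ :=
  ∑ d ∈ range (M + 1), c d * (if x.natAbs = d then 1 else 0)

lemma pot_eq (M : ℕ) (c : ℕ → ℝ) (x : ℤ) :
    pot M c x = if x.natAbs < M + 1 then c x.natAbs else 0 := by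
  unfold pot
  simp only [mul_ite, mul_one, mul_zero]
  rw [Finset.sum_ite_eq]
  simp

lemma pot_nonneg (M : ℕ) (c : ℕ → ℝ) (hc : ∀ d, 0 ≤ c d) (x : ℤ) : 0 ≤ pot M c x := by
  rw [pot_eq]; split
  · exact hc _
  · exact le_rfl

lemma pot_neg (M : ℕ) (c : ℕ → ℝ) (x : ℤ) : pot M c (-x) = pot M c x := by
  rw [pot_eq, pot_eq, Int.natAbs_neg]

lemma natAbs_count (m K : ℕ) (hm : 0 < m) (hK : 0 < K) (β : ℕ → ℤ)
    (hβ : ∀ i < 4 * K * m, ∀ j < 4 * K * m, β i = β j → i = j)
    (s t : ℕ) (hst : s < t) (htm : t < m) (d : ℕ) :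
    (((range (2 * K * m)) ×ˢ (range (K * m))).filter
      (fun p => (W K m p.1 p.2 β t - W K m p.1 p.2 β s).natAbs = d)).card
        * (t - s) ≤ 24 * K * m * m := by
  classical
  have h1 := pair_count m K hm hK β hβ s t hst htm d
  have h2 := pair_count m K hm hK β hβ s t hst htm (-d)
  set Ω := (range (2 * K * m)) ×ˢ (range (K * m))
  have hsub : Ω.filter (fun p => (W K m p.1 p.2 β t - W K m p.1 p.2 β s).natAbs = d) ⊆
      Ω.filter (fun p => ((t : ℤ) + β (col K m p.1 p.2 t)) - ((s : ℤ) + β (col K m p.1 p.2 s)) = d)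
      ∪ Ω.filter (fun p => ((t : ℤ) + β (col K m p.1 p.2 t)) - ((s : ℤ) + β (col K m p.1 p.2 s))
        = -(d : ℤ)) := by
    intro p hp
    rw [mem_filter] at hp
    rw [mem_union, mem_filter, mem_filter]
    have h3 : (W K m p.1 p.2 β t - W K m p.1 p.2 β s).natAbs = d := hp.2
    unfold W at h3
    have h4 : ((t : ℤ) + β (col K m p.1 p.2 t)) - ((s : ℤ) + β (col K m p.1 p.2 s)) = d ∨
        ((t : ℤ) + β (col K m p.1 p.2 t)) - ((s : ℤ) + β (col K m p.1 p.2 s)) = -(d : ℤ) := by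
      omega
    rcases h4 with h4 | h4
    · exact Or.inl ⟨hp.1, h4⟩
    · exact Or.inr ⟨hp.1, h4⟩
  have h5 := (card_le_card hsub).trans (card_union_le _ _)
  calc _ ≤ _ := Nat.mul_le_mul_right (t - s) h5
    _ ≤ 12 * K * m * m + 12 * K * m * m := by rw [add_mul]; exact Nat.add_le_add h1 h2
    _ = 24 * K * m * m := by ring

lemma pair_pot_lt (m K M : ℕ) (hm : 0 < m) (hK : 0 < K) (β : ℕ → ℤ)
    (hβ : ∀ i < 4 * K * m, ∀ j < 4 * K * m, β i = β j → i = j)
    (c : ℕ → ℝ) (hc : ∀ d, 0 ≤ c d)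
    (s t : ℕ) (hst : s < t) (htm : t < m) :
    ∑ p ∈ (range (2 * K * m)) ×ˢ (range (K * m)),
      pot M c (W K m p.1 p.2 β t - W K m p.1 p.2 β s) ≤
      (∑ d ∈ range (M + 1), c d) * ((24 * K * m * m : ℕ) * (1 / |(t : ℝ) - s|)) := by
  classical
  unfold pot
  rw [sum_comm, sum_mul]
  apply sum_le_sum
  intro d _
  rw [← mul_sum]
  apply mul_le_mul_of_nonneg_left _ (hc d)
  rw [sum_boole]
  have h := natAbs_count m K hm hK β hβ s t hst htm d
  have hpos : (0 : ℝ) < (t : ℝ) - s := by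
    have : (s : ℝ) < t := by exact_mod_cast hst
    linarith
  rw [abs_of_pos hpos, mul_one_div, le_div_iff₀ hpos]
  have h' : ((((range (2 * K * m)) ×ˢ (range (K * m))).filter
      (fun p => (W K m p.1 p.2 β t - W K m p.1 p.2 β s).natAbs = d)).card * (t - s) : ℕ) ≤
      24 * K * m * m := h
  have h2 : (((((range (2 * K * m)) ×ˢ (range (K * m))).filter
      (fun p => (W K m p.1 p.2 β t - W K m p.1 p.2 β s).natAbs = d)).card * (t - s) : ℕ) : ℝ) ≤
      ((24 * K * m * m : ℕ) : ℝ) := by exact_mod_cast h'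
  rw [Nat.cast_mul, Nat.cast_sub hst.le] at h2
  exact h2

lemma pair_pot (m K M : ℕ) (hm : 0 < m) (hK : 0 < K) (β : ℕ → ℤ)
    (hβ : ∀ i < 4 * K * m, ∀ j < 4 * K * m, β i = β j → i = j)
    (c : ℕ → ℝ) (hc : ∀ d, 0 ≤ c d)
    (s t : ℕ) (hst : s ≠ t) (hsm : s < m) (htm : t < m) :
    ∑ p ∈ (range (2 * K * m)) ×ˢ (range (K * m)),
      pot M c (W K m p.1 p.2 β t - W K m p.1 p.2 β s) ≤
      (∑ d ∈ range (M + 1), c d) * ((24 * K * m * m : ℕ) * (1 / |(t : ℝ) - s|)) := by
  rcases lt_or_gt_of_ne hst with h | h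
  · exact pair_pot_lt m K M hm hK β hβ c hc s t h htm
  · have := pair_pot_lt m K M hm hK β hβ c hc t s h hsm
    rw [abs_sub_comm]
    refine le_trans (le_of_eq ?_) this
    apply sum_congr rfl
    intro p _
    rw [← pot_neg]
    congr 1
    ring

/-- Harmonic sum. -/
noncomputable def H (m : ℕ) : ℝ := ∑ d ∈ range m, 1 / ((d : ℝ) + 1)

lemma H_nonneg (m : ℕ) : 0 ≤ H m := sum_nonneg (fun d _ => by positivity)

lemma H_mono {m n : ℕ} (h : m ≤ n) : H m ≤ H n := by
  unfold H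
  apply sum_le_sum_of_subset_of_nonneg
  · intro x hx; rw [mem_range] at *; omega
  · intro d _ _; positivity

lemma sum_inv_dist (m s : ℕ) (hs : s < m) :
    ∑ t ∈ (range m).erase s, 1 / |(t : ℝ) - s| ≤ 2 * H m := by
  have hsplit : (range m).erase s = range s ∪ Ico (s + 1) m := by
    ext x; simp only [mem_erase, mem_range, mem_union, mem_Ico]; omega
  have hdisj : Disjoint (range s) (Ico (s + 1) m) := by
    rw [Finset.disjoint_left]; intro x hx hx'; rw [mem_range] at hx; rw [mem_Ico] at hx'; omega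
  rw [hsplit, sum_union hdisj]
  have h1 : ∑ t ∈ range s, 1 / |(t : ℝ) - s| = H s := by
    unfold H
    rw [← Finset.sum_range_reflect]
    apply sum_congr rfl
    intro t ht
    rw [mem_range] at ht
    have : ((s - 1 - t : ℕ) : ℝ) = (s : ℝ) - 1 - t := by
      rw [Nat.cast_sub (by omega), Nat.cast_sub (by omega)]; simp
    rw [this, show (s : ℝ) - 1 - t - s = -(t + 1) by ring, abs_neg, abs_of_pos (by positivity)]
  have h2 : ∑ t ∈ Ico (s + 1) m, 1 / |(t : ℝ) - s| = H (m - (s + 1)) := by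
    unfold H
    rw [Finset.sum_Ico_eq_sum_range]
    apply sum_congr rfl
    intro t _
    rw [show ((s + 1 + t : ℕ) : ℝ) - s = t + 1 by push_cast; ring, abs_of_pos (by positivity)]
  rw [h1, h2]
  have := H_mono (show s ≤ m by omega)
  have := H_mono (show m - (s + 1) ≤ m by omega)
  linarith

/-- The averaging argument: some line has small total potential. -/
lemma exists_line (m K M : ℕ) (hm : 0 < m) (hK : 0 < K) (β : ℕ → ℤ)
    (hβ : ∀ i < 4 * K * m, ∀ j < 4 * K * m, β i = β j → i = j)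
    (c : ℕ → ℝ) (hc : ∀ d, 0 ≤ c d) :
    ∃ a k, a < 2 * K * m ∧ k < K * m ∧
      ∑ s ∈ range m, ∑ t ∈ (range m).erase s, pot M c (W K m a k β t - W K m a k β s) ≤
        24 * m * H m * (∑ d ∈ range (M + 1), c d) / K := by
  classical
  set Ω := (range (2 * K * m)) ×ˢ (range (K * m)) with hΩ
  have hKm : 0 < K * m := Nat.mul_pos hK hm
  have hne : Ω.Nonempty := by
    refine ⟨(0, 0), ?_⟩
    rw [hΩ, mem_product, mem_range, mem_range]
    exact ⟨by nlinarith, hKm⟩
  have hcard : (Ω.card : ℝ) = 2 * K * m * (K * m) := by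
    rw [hΩ, card_product, card_range, card_range]; push_cast; ring
  set C := ∑ d ∈ range (M + 1), c d with hC
  have hC0 : 0 ≤ C := sum_nonneg (fun d _ => hc d)
  have htot : ∑ p ∈ Ω, (∑ s ∈ range m, ∑ t ∈ (range m).erase s,
      pot M c (W K m p.1 p.2 β t - W K m p.1 p.2 β s)) ≤
      ∑ _p ∈ Ω, 24 * m * H m * C / K := by
    rw [sum_comm]
    have : ∑ s ∈ range m, ∑ p ∈ Ω, ∑ t ∈ (range m).erase s,
        pot M c (W K m p.1 p.2 β t - W K m p.1 p.2 β s) ≤
        ∑ _s ∈ range m, C * ((24 * K * m * m : ℕ) * (2 * H m)) := by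
      apply sum_le_sum
      intro s hs
      rw [mem_range] at hs
      rw [sum_comm]
      calc ∑ t ∈ (range m).erase s, ∑ p ∈ Ω,
            pot M c (W K m p.1 p.2 β t - W K m p.1 p.2 β s)
          ≤ ∑ t ∈ (range m).erase s, C * ((24 * K * m * m : ℕ) * (1 / |(t : ℝ) - s|)) := by
            apply sum_le_sum
            intro t ht
            rw [mem_erase, mem_range] at ht
            exact pair_pot m K M hm hK β hβ c hc s t (Ne.symm ht.1) hs ht.2
        _ = C * ((24 * K * m * m : ℕ) * ∑ t ∈ (range m).erase s, (1 / |(t : ℝ) - s|)) := by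
            rw [mul_sum, mul_sum]
        _ ≤ C * ((24 * K * m * m : ℕ) * (2 * H m)) := by
            apply mul_le_mul_of_nonneg_left _ hC0
            apply mul_le_mul_of_nonneg_left _ (by positivity)
            exact sum_inv_dist m s hs
    refine le_trans this (le_of_eq ?_)
    rw [sum_const, sum_const, card_range, nsmul_eq_mul, nsmul_eq_mul, hcard]
    have hK' : (K : ℝ) ≠ 0 := by positivity
    field_simp
    push_cast
    ring
  obtain ⟨p, hp, hple⟩ := exists_le_of_sum_le hne htot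
  rw [hΩ, mem_product, mem_range, mem_range] at hp
  exact ⟨p.1, p.2, hp.1, hp.2, hple⟩

end Pool.Agent.R155.Harm
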