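import Mathlib
import Pool.Agent.R155.HarmB

namespace Pool.Agent.R155.Harm

open Finset

/-- The number of other indices `t < m` whose weight is within `x` of the weight of `s`. -/
def near (m : ℕ) (w : ℕ → ℤ) (s x : ℕ) : Finset ℕ :=
  ((range m).erase s).filter (fun t => (w t - w s).natAbs ≤ x)

lemma good_set (m K : ℕ) (hm : 0 < m) (hK : 0 < K) (β : ℕ → ℤ)
    (hβ : ∀ i < 4 * K * m, ∀ j < 4 * K * m, β i = β j → i = j)
    (hbig : 576 * H m * H (2 * m + 1) ≤ K) :
    ∃ a k, a < 2 * K * m ∧ k < K * m ∧ ∃ S ⊆ range m, m ≤ 2 * S.card ∧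
      ∀ s ∈ S, ∀ g, 1 ≤ g → g ≤ m → 4 * (near m (W K m a k β) s (2 * g)).card < g := by
  classical
  obtain ⟨a, k, ha, hk, hle⟩ := exists_line m K (2 * m) hm hK β hβ
    (fun d => 1 / ((d : ℝ) + 1)) (fun d => by positivity)
  refine ⟨a, k, ha, hk, ?_⟩
  set w := W K m a k β with hw
  set Φ : ℕ → ℝ := fun s => ∑ t ∈ (range m).erase s,
    pot (2 * m) (fun d => 1 / ((d : ℝ) + 1)) (w t - w s) with hΦ
  have hΦ0 : ∀ s, 0 ≤ Φ s := fun s => sum_nonneg
    (fun t _ => pot_nonneg _ _ (fun d => by positivity) _)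
  have hKpos : (0 : ℝ) < K := by exact_mod_cast hK
  have hmpos : (0 : ℝ) < m := by exact_mod_cast hm
  have htot : ∑ s ∈ range m, Φ s ≤ m / 24 := by
    refine hle.trans ?_
    have : (∑ d ∈ range (2 * m + 1), 1 / ((d : ℝ) + 1)) = H (2 * m + 1) := rfl
    rw [this, div_le_div_iff₀ hKpos (by norm_num)]
    have := mul_le_mul_of_nonneg_left hbig hmpos.le
    nlinarith [this]
  set B := (range m).filter (fun s => 1 / 12 ≤ Φ s) with hB
  have hBcard : (B.card : ℝ) * (1 / 12) ≤ m / 24 := by
    calc (B.card : ℝ) * (1 / 12) = ∑ _s ∈ B, (1 / 12 : ℝ) := by rw [sum_const, nsmul_eq_mul]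
      _ ≤ ∑ s ∈ B, Φ s := sum_le_sum (fun s hs => by rw [hB, mem_filter] at hs; exact hs.2)
      _ ≤ ∑ s ∈ range m, Φ s :=
          sum_le_sum_of_subset_of_nonneg (filter_subset _ _) (fun s _ _ => hΦ0 s)
      _ ≤ m / 24 := htot
  have hBc : 2 * B.card ≤ m := by
    have : (2 * B.card : ℝ) ≤ m := by linarith
    exact_mod_cast this
  refine ⟨range m \ B, sdiff_subset, ?_, ?_⟩
  · have hc := card_sdiff_of_subset (show B ⊆ range m from filter_subset _ _)
    rw [hc, card_range]; omega
  · intro s hs g hg1 hgm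
    rw [mem_sdiff, hB, mem_filter] at hs
    have hlt : Φ s < 1 / 12 := by
      by_contra hcon
      exact hs.2 ⟨hs.1, not_lt.1 hcon⟩
    set N := near m w s (2 * g) with hN
    have h1 : (N.card : ℝ) * (1 / (2 * g + 1)) ≤ Φ s := by
      calc (N.card : ℝ) * (1 / (2 * g + 1)) = ∑ _t ∈ N, (1 / (2 * (g : ℝ) + 1)) := by
            rw [sum_const, nsmul_eq_mul]
        _ ≤ ∑ t ∈ N, pot (2 * m) (fun d => 1 / ((d : ℝ) + 1)) (w t - w s) := by
            apply sum_le_sum
            intro t ht
            rw [hN, near, mem_filter] at ht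
            rw [pot_eq, if_pos (by omega)]
            apply one_div_le_one_div_of_le (by positivity)
            have : ((w t - w s).natAbs : ℝ) ≤ ((2 * g : ℕ) : ℝ) := by exact_mod_cast ht.2
            push_cast at this
            linarith
        _ ≤ Φ s := sum_le_sum_of_subset_of_nonneg (filter_subset _ _)
            (fun t _ _ => pot_nonneg _ _ (fun d => by positivity) _)
    have hg : (1 : ℝ) ≤ g := by exact_mod_cast hg1
    have h2 : (N.card : ℝ) * (1 / (2 * g + 1)) < 1 / 12 := lt_of_le_of_lt h1 hlt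
    rw [mul_one_div, div_lt_div_iff₀ (by positivity) (by norm_num)] at h2
    have h3 : (4 * N.card : ℝ) < g := by linarith
    exact_mod_cast h3

lemma forb (m : ℕ) (w : ℕ → ℤ) (s0 x : ℕ) (A R : Finset ℕ) (τ : ℕ → ℕ)
    (hτ : ∀ l ∈ A, ∀ l' ∈ A, τ l = τ l' → l = l') (hτm : ∀ l ∈ A, τ l < m)
    (v : ℕ → ℤ) (y : ℤ)
    (hcond : ∀ r ∈ R, ∀ l ∈ A, (r : ℤ) + y = v l → τ l ≠ s0 ∧ (w (τ l) - w s0).natAbs ≤ x) :
    (R.filter (fun r : ℕ => ∃ l ∈ A, (r : ℤ) + y = v l)).card ≤ (near m w s0 x).card := by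
  classical
  set A' := A.filter (fun l => τ l ≠ s0 ∧ (w (τ l) - w s0).natAbs ≤ x) with hA'
  have h1 : R.filter (fun r : ℕ => ∃ l ∈ A, (r : ℤ) + y = v l) ⊆
      A'.image (fun l => (v l - y).toNat) := by
    intro r hr
    rw [mem_filter] at hr
    obtain ⟨hrR, l, hl, he⟩ := hr
    rw [mem_image]
    refine ⟨l, ?_, ?_⟩
    · rw [hA', mem_filter]; exact ⟨hl, hcond r hrR l hl he⟩
    · rw [← he]; simp
  have h2 : A'.image τ ⊆ near m w s0 x := by
    intro t ht
    rw [mem_image] at ht
    obtain ⟨l, hl, rfl⟩ := ht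
    rw [hA', mem_filter] at hl
    rw [near, mem_filter, mem_erase, mem_range]
    exact ⟨⟨hl.2.1, hτm l hl.1⟩, hl.2.2⟩
  have h3 : (A'.image τ).card = A'.card := by
    apply card_image_of_injOn
    intro l hl l' hl' h
    rw [mem_coe, hA', mem_filter] at hl hl'
    exact hτ l hl.1 l' hl'.1 h
  calc _ ≤ (A'.image (fun l => (v l - y).toNat)).card := card_le_card h1
    _ ≤ A'.card := card_image_le
    _ = (A'.image τ).card := h3.symm
    _ ≤ _ := card_le_card h2

lemma links (m q : ℕ) (b : ℕ → ℤ) (σ : ℕ → ℕ)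
    (hσ : ∀ k l, k < l → l ≤ q → σ k < σ l) (hσm : ∀ k ≤ q, σ k < m)
    (hgood : ∀ k ≤ q, ∀ g, 1 ≤ g → g ≤ m →
      4 * (near m (fun t => (t : ℤ) + b t) (σ k) (2 * g)).card < g) :
    ∃ r : ℕ → ℕ, (∀ k < q, σ k < r k ∧ r k ≤ σ (k + 1)) ∧
      ∀ k < q, ∀ l < q, k ≠ l →
        (r k : ℤ) + b (σ k) ≠ r l + b (σ l) ∧ (r k : ℤ) + b (σ k) ≠ r l + b (σ (l + 1)) ∧
        (r k : ℤ) + b (σ (k + 1)) ≠ r l + b (σ (l + 1)) := by
  classical
  have hinj : ∀ k l, k ≤ q → l ≤ q → σ k = σ l → k = l := by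
    intro k l hk hl h
    rcases lt_trichotomy k l with h1 | h1 | h1
    · have := hσ k l h1 hl; omega
    · exact h1
    · have := hσ l k h1 hk; omega
  set w : ℕ → ℤ := fun t => (t : ℤ) + b t with hw
  have main : ∀ A : Finset ℕ, A ⊆ range q → ∃ r : ℕ → ℕ, (∀ k ∈ A, σ k < r k ∧ r k ≤ σ (k + 1)) ∧
      ∀ k ∈ A, ∀ l ∈ A, k ≠ l →
        (r k : ℤ) + b (σ k) ≠ r l + b (σ l) ∧ (r k : ℤ) + b (σ k) ≠ r l + b (σ (l + 1)) ∧
        (r k : ℤ) + b (σ (k + 1)) ≠ r l + b (σ (l + 1)) := by
    intro A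
    refine Finset.induction_on_max_value (fun k => σ (k + 1) - σ k) A ?_ ?_
    · intro _
      exact ⟨fun _ => 0, by simp, by simp⟩
    · intro a s has hmax ih hsub
      have haq : a < q := by
        have := hsub (mem_insert_self a s); rwa [mem_range] at this
      have hsq : ∀ l ∈ s, l < q := fun l hl => by
        have := hsub (mem_insert_of_mem hl); rwa [mem_range] at this
      obtain ⟨r, hr1, hr2⟩ := ih (fun x hx => hsub (mem_insert_of_mem hx))
      set g := σ (a + 1) - σ a with hg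
      have hlt := hσ a (a + 1) (by omega) (by omega)
      have hg1 : 1 ≤ g := by omega
      have hm1 := hσm (a + 1) (by omega)
      have hgm : g ≤ m := by omega
      have hgl : ∀ l ∈ s, σ (l + 1) - σ l ≤ g := fun l hl => hmax l hl
      set R := Ioc (σ a) (σ (a + 1)) with hR
      have hRcard : R.card = g := by rw [hR, Nat.card_Ioc]
      have hne : ∀ l ∈ s, l ≠ a := fun l hl h => has (h ▸ hl)
      have F11 := forb m w (σ a) (2 * g) s R σ
        (fun l hl l' hl' h => hinj l l' (by have := hsq l hl; omega) (by have := hsq l' hl'; omega) h)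
        (fun l hl => hσm l (by have := hsq l hl; omega))
        (fun l => (r l : ℤ) + b (σ l)) (b (σ a)) (by
          intro r0 hr0 l hl he
          rw [hR, mem_Ioc] at hr0
          have := hr1 l hl
          have := hgl l hl
          have := hsq l hl
          refine ⟨fun h => hne l hl (hinj l a (by omega) (by omega) h), ?_⟩
          simp only [hw]
          omega)
      have F12 := forb m w (σ a) (2 * g) s R (fun l => σ (l + 1))
        (fun l hl l' hl' h => by
          have := hinj (l + 1) (l' + 1) (by have := hsq l hl; omega) (by have := hsq l' hl'; omega) h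
          omega)
        (fun l hl => hσm (l + 1) (by have := hsq l hl; omega))
        (fun l => (r l : ℤ) + b (σ (l + 1))) (b (σ a)) (by
          intro r0 hr0 l hl he
          rw [hR, mem_Ioc] at hr0
          have := hr1 l hl
          have := hgl l hl
          have := hsq l hl
          refine ⟨fun h => ?_, ?_⟩
          · rw [h] at he
            omega
          · simp only [hw]
            omega)
      have F21 := forb m w (σ (a + 1)) (2 * g) s R σ
        (fun l hl l' hl' h => hinj l l' (by have := hsq l hl; omega) (by have := hsq l' hl'; omega) h)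
        (fun l hl => hσm l (by have := hsq l hl; omega))
        (fun l => (r l : ℤ) + b (σ l)) (b (σ (a + 1))) (by
          intro r0 hr0 l hl he
          rw [hR, mem_Ioc] at hr0
          have := hr1 l hl
          have := hgl l hl
          have := hsq l hl
          refine ⟨fun h => ?_, ?_⟩
          · rw [h] at he
            omega
          · simp only [hw]
            omega)
      have F22 := forb m w (σ (a + 1)) (2 * g) s R (fun l => σ (l + 1))
        (fun l hl l' hl' h => by
          have := hinj (l + 1) (l' + 1) (by have := hsq l hl; omega) (by have := hsq l' hl'; omega) h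
          omega)
        (fun l hl => hσm (l + 1) (by have := hsq l hl; omega))
        (fun l => (r l : ℤ) + b (σ (l + 1))) (b (σ (a + 1))) (by
          intro r0 hr0 l hl he
          rw [hR, mem_Ioc] at hr0
          have := hr1 l hl
          have := hgl l hl
          have := hsq l hl
          refine ⟨fun h => ?_, ?_⟩
          · have := hinj (l + 1) (a + 1) (by omega) (by omega) h
            exact hne l hl (by omega)
          · simp only [hw]
            omega)
      have G1 := hgood a (by omega) g hg1 hgm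
      have G2 := hgood (a + 1) (by omega) g hg1 hgm
      obtain ⟨r0, hr0R, hr0⟩ : ∃ r0 ∈ R, ∀ l ∈ s,
          (r0 : ℤ) + b (σ a) ≠ r l + b (σ l) ∧ (r0 : ℤ) + b (σ a) ≠ r l + b (σ (l + 1)) ∧
          (r0 : ℤ) + b (σ (a + 1)) ≠ r l + b (σ l) ∧
          (r0 : ℤ) + b (σ (a + 1)) ≠ r l + b (σ (l + 1)) := by
        by_contra hcon
        push Not at hcon
        have hcover : R ⊆ ((R.filter (fun r0 : ℕ => ∃ l ∈ s, (r0 : ℤ) + b (σ a) = (r l : ℤ) + b (σ l)))
            ∪ (R.filter (fun r0 : ℕ => ∃ l ∈ s, (r0 : ℤ) + b (σ a) = (r l : ℤ) + b (σ (l + 1)))))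
            ∪ ((R.filter (fun r0 : ℕ => ∃ l ∈ s, (r0 : ℤ) + b (σ (a + 1)) = (r l : ℤ) + b (σ l)))
            ∪ (R.filter (fun r0 : ℕ => ∃ l ∈ s,
              (r0 : ℤ) + b (σ (a + 1)) = (r l : ℤ) + b (σ (l + 1))))) := by
          intro r0 hr0
          obtain ⟨l, hl, hh⟩ := hcon r0 hr0
          simp only [mem_union, mem_filter]
          by_cases c1 : (r0 : ℤ) + b (σ a) = r l + b (σ l)
          · exact Or.inl (Or.inl ⟨hr0, l, hl, c1⟩)
          by_cases c2 : (r0 : ℤ) + b (σ a) = r l + b (σ (l + 1))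
          · exact Or.inl (Or.inr ⟨hr0, l, hl, c2⟩)
          by_cases c3 : (r0 : ℤ) + b (σ (a + 1)) = r l + b (σ l)
          · exact Or.inr (Or.inl ⟨hr0, l, hl, c3⟩)
          · exact Or.inr (Or.inr ⟨hr0, l, hl, hh c1 c2 c3⟩)
        have h1 := card_le_card hcover
        have h2 := card_union_le
          ((R.filter (fun r0 : ℕ => ∃ l ∈ s, (r0 : ℤ) + b (σ a) = (r l : ℤ) + b (σ l)))
            ∪ (R.filter (fun r0 : ℕ => ∃ l ∈ s, (r0 : ℤ) + b (σ a) = (r l : ℤ) + b (σ (l + 1)))))
          ((R.filter (fun r0 : ℕ => ∃ l ∈ s, (r0 : ℤ) + b (σ (a + 1)) = (r l : ℤ) + b (σ l)))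
            ∪ (R.filter (fun r0 : ℕ => ∃ l ∈ s,
              (r0 : ℤ) + b (σ (a + 1)) = (r l : ℤ) + b (σ (l + 1)))))
        have h3 := card_union_le
          (R.filter (fun r0 : ℕ => ∃ l ∈ s, (r0 : ℤ) + b (σ a) = (r l : ℤ) + b (σ l)))
          (R.filter (fun r0 : ℕ => ∃ l ∈ s, (r0 : ℤ) + b (σ a) = (r l : ℤ) + b (σ (l + 1))))
        have h4 := card_union_le
          (R.filter (fun r0 : ℕ => ∃ l ∈ s, (r0 : ℤ) + b (σ (a + 1)) = (r l : ℤ) + b (σ l)))
          (R.filter (fun r0 : ℕ => ∃ l ∈ s, (r0 : ℤ) + b (σ (a + 1)) = (r l : ℤ) + b (σ (l + 1))))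
        beta_reduce at F11 F12 F21 F22
        omega
      refine ⟨Function.update r a r0, ?_, ?_⟩
      · intro k hk0
        rcases mem_insert.1 hk0 with hk | hk
        · rw [hk, Function.update_self]
          rw [hR, mem_Ioc] at hr0R
          exact hr0R
        · rw [Function.update_of_ne (hne k hk)]
          exact hr1 k hk
      · intro k hk0 l hl0 hkl
        rcases mem_insert.1 hk0 with hk | hk
        · rcases mem_insert.1 hl0 with hl | hl
          · exact absurd (hk.trans hl.symm) hkl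
          · rw [hk, Function.update_self, Function.update_of_ne (hne l hl)]
            have := hr0 l hl
            exact ⟨this.1, this.2.1, this.2.2.2⟩
        · rcases mem_insert.1 hl0 with hl | hl
          · rw [hl, Function.update_self, Function.update_of_ne (hne k hk)]
            have := hr0 k hk
            exact ⟨fun h => this.1 h.symm, fun h => this.2.2.1 h.symm, fun h => this.2.2.2 h.symm⟩
          · rw [Function.update_of_ne (hne k hk), Function.update_of_ne (hne l hl)]
            exact hr2 k hk l hl hkl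
  obtain ⟨r, h1, h2⟩ := main (range q) subset_rfl
  exact ⟨r, fun k hk => h1 k (mem_range.2 hk),
    fun k hk l hl => h2 k (mem_range.2 hk) l (mem_range.2 hl)⟩

end Pool.Agent.R155.Harm
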