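import Mathlib

namespace Pool.Agent.R155.Harm

open Finset

/-- Number of up-steps `x j → y j` crossing level `z + 1/2`. -/
def hgt (K : ℕ) (x y : ℕ → ℤ) (z : ℤ) : ℕ :=
  ((range K).filter (fun j => x j ≤ z ∧ z < y j)).card

lemma hgt_pos (K : ℕ) (x y : ℕ → ℤ)
    (h2 : ∀ j, j + 1 < K → x (j + 1) < y j)
    (hend : x 0 < y (K - 1)) (z : ℤ)
    (hlo : ∃ j < K, x j ≤ z) (hhi : ∃ j < K, z < y j) : 1 ≤ hgt K x y z := by
  by_contra hcon
  have h0 : hgt K x y z = 0 := by omega
  unfold hgt at h0
  rw [card_eq_zero, filter_eq_empty_iff] at h0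
  have hstep : ∀ j < K, x j ≤ z → y j ≤ z := by
    intro j hj hx
    by_contra hy
    exact h0 (mem_range.2 hj) ⟨hx, not_le.1 hy⟩
  have hup : ∀ j, j < K → x j ≤ z → ∀ i, j ≤ i → i < K → x i ≤ z := by
    intro j hj hx i hji
    induction i, hji using Nat.le_induction with
    | base => intro _; exact hx
    | succ i _ ih =>
      intro hi
      have := hstep i (by omega) (ih (by omega))
      have := h2 i hi
      linarith
  obtain ⟨j, hj, hx⟩ := hlo
  have hlast := hstep (K - 1) (by omega) (hup j hj hx (K - 1) (by omega) (by omega))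
  have hx0 : x 0 ≤ z := by linarith
  obtain ⟨i, hi, hy⟩ := hhi
  have := hstep i hi (hup 0 (by omega) hx0 i (Nat.zero_le _) hi)
  linarith

lemma hgt_ne (K : ℕ) (x y : ℕ → ℤ) (h1 : ∀ j < K, x j < y j)
    (hxy : ∀ i < K, ∀ j < K, x i ≠ y j) (z : ℤ)
    (hz : (∃ i < K, x i = z) ∨ (∃ i < K, y i = z)) : hgt K x y z ≠ hgt K x y (z - 1) := by
  classical
  have key : (hgt K x y z : ℤ) + ((range K).filter (fun j => y j = z)).card =
      hgt K x y (z - 1) + ((range K).filter (fun j => x j = z)).card := by
    unfold hgt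
    simp only [card_filter]
    push_cast
    rw [← sum_add_distrib, ← sum_add_distrib]
    apply sum_congr rfl
    intro j hj
    have := h1 j (mem_range.1 hj)
    by_cases a1 : x j = z
    · have b1 : ¬ (x j ≤ z - 1 ∧ z - 1 < y j) := by omega
      have b2 : x j ≤ z ∧ z < y j := by omega
      have b3 : ¬ y j = z := by omega
      rw [if_pos a1, if_neg b1, if_pos b2, if_neg b3]; ring
    · by_cases a2 : y j = z
      · have b1 : (x j ≤ z - 1 ∧ z - 1 < y j) := by omega
        have b2 : ¬ (x j ≤ z ∧ z < y j) := by omega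
        rw [if_neg a1, if_pos a2, if_pos b1, if_neg b2]; ring
      · by_cases a3 : x j ≤ z ∧ z < y j
        · have b1 : (x j ≤ z - 1 ∧ z - 1 < y j) := by omega
          rw [if_neg a1, if_neg a2, if_pos a3, if_pos b1]
        · have b1 : ¬ (x j ≤ z - 1 ∧ z - 1 < y j) := by omega
          rw [if_neg a1, if_neg a2, if_neg a3, if_neg b1]
  intro heq
  rw [heq] at key
  have key2 : ((range K).filter (fun j => y j = z)).card =
      ((range K).filter (fun j => x j = z)).card := by omega
  rcases hz with ⟨i, hi, hiz⟩ | ⟨i, hi, hiz⟩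
  · have e1 : (range K).filter (fun j => y j = z) = ∅ := by
      rw [filter_eq_empty_iff]
      intro j hj h
      exact hxy i hi j (mem_range.1 hj) (hiz.trans h.symm)
    have e2 : i ∈ (range K).filter (fun j => x j = z) := mem_filter.2 ⟨mem_range.2 hi, hiz⟩
    rw [e1, card_empty] at key2
    have := card_pos.2 ⟨i, e2⟩
    omega
  · have e1 : (range K).filter (fun j => x j = z) = ∅ := by
      rw [filter_eq_empty_iff]
      intro j hj h
      exact hxy j (mem_range.1 hj) i hi (h.trans hiz.symm)
    have e2 : i ∈ (range K).filter (fun j => y j = z) := mem_filter.2 ⟨mem_range.2 hi, hiz⟩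
    rw [e1, card_empty] at key2
    have := card_pos.2 ⟨i, e2⟩
    omega

/-- A zigzag through `2K` distinct integers that ends above its start uses up-steps of total
length at least `3K - 2`, plus one for each further integer of `E` in its range. -/
lemma zigzag (K : ℕ) (hK : 1 ≤ K) (x y : ℕ → ℤ) (E : Finset ℤ)
    (hE : ∀ e ∈ E, (∃ j < K, x j ≤ e) ∧ (∃ j < K, e ≤ y j) ∧ ∀ j < K, e ≠ x j ∧ e ≠ y j)
    (h1 : ∀ j < K, x j < y j) (h2 : ∀ j, j + 1 < K → x (j + 1) < y j)
    (hxx : ∀ i < K, ∀ j < K, x i = x j → i = j) (hyy : ∀ i < K, ∀ j < K, y i = y j → i = j)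
    (hxy : ∀ i < K, ∀ j < K, x i ≠ y j)
    (hend : x 0 < y (K - 1)) :
    (3 * K : ℤ) - 2 + E.card ≤ ∑ j ∈ range K, (y j - x j) := by
  classical
  set X := (range K).image x with hX
  set Y := (range K).image y with hY
  have hneX : X.Nonempty := ⟨x 0, mem_image.2 ⟨0, mem_range.2 hK, rfl⟩⟩
  have hneY : Y.Nonempty := ⟨y 0, mem_image.2 ⟨0, mem_range.2 hK, rfl⟩⟩
  set lo := X.min' hneX with hlo
  set hi := Y.max' hneY with hhi
  obtain ⟨jlo, hjlo, hjlo'⟩ := mem_image.1 (X.min'_mem hneX)
  obtain ⟨jhi, hjhi, hjhi'⟩ := mem_image.1 (Y.max'_mem hneY)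
  rw [mem_range] at hjlo hjhi
  have hlox : ∀ j < K, lo ≤ x j := fun j hj =>
    X.min'_le _ (mem_image.2 ⟨j, mem_range.2 hj, rfl⟩)
  have hhiy : ∀ j < K, y j ≤ hi := fun j hj =>
    Y.le_max' _ (mem_image.2 ⟨j, mem_range.2 hj, rfl⟩)
  -- the sum as a double count
  have hsum : ∑ j ∈ range K, (y j - x j) = ∑ z ∈ Ico lo hi, (hgt K x y z : ℤ) := by
    unfold hgt
    simp only [card_filter]
    push_cast
    rw [sum_comm]
    apply sum_congr rfl
    intro j hj
    rw [mem_range] at hj
    have : ∀ z ∈ Ico lo hi, (if x j ≤ z ∧ z < y j then (1 : ℤ) else 0) =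
        if z ∈ Ico (x j) (y j) then 1 else 0 := by
      intro z _; simp only [mem_Ico]
    rw [sum_congr rfl this, ← sum_filter, filter_mem_eq_inter]
    have hsub : Ico lo hi ∩ Ico (x j) (y j) = Ico (x j) (y j) := by
      apply inter_eq_right.2
      intro z hz
      rw [mem_Ico] at *
      have := hlox j hj
      have := hhiy j hj
      omega
    rw [hsub, sum_const, Int.card_Ico, nsmul_eq_mul, mul_one]
    have := h1 j hj
    omega
  rw [hsum]
  -- positivity
  have hpos : ∀ z ∈ Ico lo hi, 1 ≤ hgt K x y z := by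
    intro z hz
    rw [mem_Ico] at hz
    exact hgt_pos K x y h2 hend z ⟨jlo, hjlo, by rw [hjlo']; exact hz.1⟩
      ⟨jhi, hjhi, by rw [hjhi']; exact hz.2⟩
  set T := (Ico lo hi).filter (fun z => 2 ≤ hgt K x y z) with hT
  have hge : ((Ico lo hi).card : ℤ) + T.card ≤ ∑ z ∈ Ico lo hi, (hgt K x y z : ℤ) := by
    have : ((Ico lo hi).card : ℤ) + T.card =
        ∑ z ∈ Ico lo hi, ((1 : ℤ) + if 2 ≤ hgt K x y z then 1 else 0) := by
      rw [sum_add_distrib, sum_const, nsmul_eq_mul, mul_one, hT, card_filter]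
      push_cast
      rfl
    rw [this]
    apply sum_le_sum
    intro z hz
    have := hpos z hz
    split_ifs <;> omega
  -- number of visited values
  set V := X ∪ Y with hV
  have hcX : X.card = K := by
    rw [hX, card_image_of_injOn, card_range]
    intro i hi j hj h
    exact hxx i (mem_range.1 hi) j (mem_range.1 hj) h
  have hcY : Y.card = K := by
    rw [hY, card_image_of_injOn, card_range]
    intro i hi j hj h
    exact hyy i (mem_range.1 hi) j (mem_range.1 hj) h
  have hdisj : Disjoint X Y := by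
    rw [Finset.disjoint_left]
    intro a ha hb
    obtain ⟨i, hi, rfl⟩ := mem_image.1 ha
    obtain ⟨j, hj, hh⟩ := mem_image.1 hb
    exact hxy i (mem_range.1 hi) j (mem_range.1 hj) hh.symm
  have hcV : V.card = 2 * K := by rw [hV, card_union_of_disjoint hdisj, hcX, hcY]; ring
  have hVsub : V ⊆ Icc lo hi := by
    intro a ha
    rw [mem_Icc]
    rcases mem_union.1 ha with ha | ha
    · obtain ⟨i, hi', rfl⟩ := mem_image.1 ha
      rw [mem_range] at hi'
      have := hlox i hi'; have := hhiy i hi'; have := h1 i hi'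
      constructor <;> linarith
    · obtain ⟨i, hi', rfl⟩ := mem_image.1 ha
      rw [mem_range] at hi'
      have := hlox i hi'; have := hhiy i hi'; have := h1 i hi'
      constructor <;> linarith
  have hlohi : lo < hi := by
    have := hlox 0 hK; have := hhiy 0 hK; have := h1 0 hK; linarith
  have hrange : 2 * K + E.card ≤ (Ico lo hi).card + 1 := by
    have hVE : Disjoint V E := by
      rw [Finset.disjoint_left]
      intro a ha hb
      have := (hE a hb).2.2
      rcases mem_union.1 ha with ha | ha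
      · obtain ⟨i, hi', hh⟩ := mem_image.1 ha
        exact (this i (mem_range.1 hi')).1 hh.symm
      · obtain ⟨i, hi', hh⟩ := mem_image.1 ha
        exact (this i (mem_range.1 hi')).2 hh.symm
    have hsub2 : V ∪ E ⊆ Icc lo hi := by
      apply union_subset hVsub
      intro e he
      obtain ⟨⟨i, hi1, hi2⟩, ⟨j, hj1, hj2⟩, _⟩ := hE e he
      have := hlox i hi1
      have := hhiy j hj1
      rw [mem_Icc]
      constructor <;> linarith
    have := card_le_card hsub2
    rw [card_union_of_disjoint hVE, hcV, Int.card_Icc] at this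
    rw [Int.card_Ico]
    omega
  -- interior visited values give elements of T
  set V' := (V.erase lo).erase hi with hV'
  have hcV' : 2 * K ≤ V'.card + 2 := by
    have a1 := card_erase_add_one (s := V) (a := lo)
      (mem_union_left _ (X.min'_mem hneX))
    have a2 := pred_card_le_card_erase (s := V.erase lo) (a := hi)
    rw [hcV] at a1
    rw [← hV'] at a2
    omega
  have hV'T : V' ⊆ T ∪ T.image (fun z => z + 1) := by
    intro z hz
    rw [hV', mem_erase, mem_erase] at hz
    obtain ⟨hzhi, hzlo, hzV⟩ := hz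
    have hb := mem_Icc.1 (hVsub hzV)
    have hz1 : z ∈ Ico lo hi := by rw [mem_Ico]; omega
    have hz2 : z - 1 ∈ Ico lo hi := by rw [mem_Ico]; omega
    have p1 := hpos z hz1
    have p2 := hpos (z - 1) hz2
    have hne := hgt_ne K x y h1 hxy z (by
      rcases mem_union.1 hzV with ha | ha
      · obtain ⟨i, hi', hh⟩ := mem_image.1 ha
        exact Or.inl ⟨i, mem_range.1 hi', hh⟩
      · obtain ⟨i, hi', hh⟩ := mem_image.1 ha
        exact Or.inr ⟨i, mem_range.1 hi', hh⟩)
    rw [mem_union]
    by_cases hc : 2 ≤ hgt K x y z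
    · left; rw [hT, mem_filter]; exact ⟨hz1, hc⟩
    · right
      rw [mem_image]
      refine ⟨z - 1, ?_, by ring⟩
      rw [hT, mem_filter]
      exact ⟨hz2, by omega⟩
  have hcT : V'.card ≤ 2 * T.card := by
    have a1 := card_le_card hV'T
    have a2 := card_union_le T (T.image (fun z => z + 1))
    have a3 : (T.image (fun z => z + 1)).card ≤ T.card := card_image_le
    omega
  omega

end Pool.Agent.R155.Harm
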