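import Mathlib
import Pool.Agent.R155.HarmD

namespace Pool.Agent.R155.Harm

open Finset

/-- Nested families of pairs with distinct sums: the matching bound. -/
lemma matching_bound (n ℓ : ℕ) (hn : 1 ≤ n) (R B : ℕ → ℕ)
    (hR : ∀ k < ℓ, R k < n) (hB : ∀ k < ℓ, n ≤ B k ∧ B k < 2 * n)
    (hRi : ∀ k < ℓ, ∀ l < ℓ, R k = R l → k = l)
    (hBi : ∀ k < ℓ, ∀ l < ℓ, B k = B l → k = l)
    (hnest : ∀ k < ℓ, ∀ l < ℓ, R k < R l → B l < B k)
    (hs : ∀ k < ℓ, ∀ l < ℓ, R k + B k = R l + B l → k = l) : 2 * ℓ ≤ n + 1 := by
  classical
  rcases Nat.lt_or_ge ℓ 2 with hl | hl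
  · omega
  have hne : (range ℓ).Nonempty := ⟨0, mem_range.2 (by omega)⟩
  obtain ⟨kM, hkM, hM⟩ := exists_max_image (range ℓ) (fun k => R k + B k) hne
  obtain ⟨km, hkm, hm⟩ := exists_min_image (range ℓ) (fun k => R k + B k) hne
  rw [mem_range] at hkM hkm
  have hcard : ℓ ≤ (R kM + B kM) - (R km + B km) + 1 := by
    have h1 : ((range ℓ).image (fun k => R k + B k)).card = ℓ := by
      rw [card_image_of_injOn, card_range]
      intro i hi j hj h
      exact hs i (mem_range.1 hi) j (mem_range.1 hj) h
    have h2 : (range ℓ).image (fun k => R k + B k) ⊆ Icc (R km + B km) (R kM + B kM) := by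
      intro a ha
      obtain ⟨i, hi, rfl⟩ := mem_image.1 ha
      rw [mem_Icc]
      exact ⟨hm i hi, hM i hi⟩
    have h3 := card_le_card h2
    rw [h1, Nat.card_Icc] at h3
    omega
  have hle : R km + B km ≤ R kM + B kM := hm kM (mem_range.2 hkM)
  have hkne : kM ≠ km := by
    intro h; rw [h] at hcard; omega
  set O := ((range ℓ).erase kM).erase km with hO
  have hOc : ℓ ≤ O.card + 2 := by
    have a1 := pred_card_le_card_erase (s := range ℓ) (a := kM)
    have a2 := pred_card_le_card_erase (s := (range ℓ).erase kM) (a := km)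
    rw [← hO] at a2
    rw [card_range] at a1
    omega
  have hOm : ∀ k ∈ O, k < ℓ ∧ k ≠ kM ∧ k ≠ km := by
    intro k hk
    rw [hO, mem_erase, mem_erase, mem_range] at hk
    exact ⟨hk.2.2, hk.2.1, hk.1⟩
  -- three parts
  have bM := hB kM hkM
  have bm := hB km hkm
  have rM := hR kM hkM
  have rm := hR km hkm
  have cardle : ∀ (P : Finset ℕ) (f : ℕ → ℕ) (lo hi : ℕ), (∀ k ∈ P, lo ≤ f k ∧ f k < hi) →
      (∀ k ∈ P, ∀ l ∈ P, f k = f l → k = l) → P.card ≤ hi - lo := by
    intro P f lo hi h1 h2
    have h3 : (P.image f).card = P.card := card_image_of_injOn (fun i hi j hj h => h2 i hi j hj h)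
    rw [← h3, ← Nat.card_Ico]
    apply card_le_card
    intro a ha
    obtain ⟨i, hi, rfl⟩ := mem_image.1 ha
    rw [mem_Ico]
    exact h1 i hi
  rcases lt_trichotomy (R km) (R kM) with hc | hc | hc
  · have hbb := hnest km hkm kM hkM hc
    have hcov : O ⊆ O.filter (fun k => R k < R km) ∪ (O.filter (fun k => R km < R k ∧ R k < R kM)
        ∪ O.filter (fun k => R kM < R k)) := by
      intro k hk
      have hk' := hOm k hk
      have d1 : R k ≠ R kM := fun h => hk'.2.1 (hRi k hk'.1 kM hkM h)
      have d2 : R k ≠ R km := fun h => hk'.2.2 (hRi k hk'.1 km hkm h)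
      simp only [mem_union, mem_filter]
      rcases lt_trichotomy (R k) (R km) with h | h | h
      · exact Or.inl ⟨hk, h⟩
      · exact absurd h d2
      · rcases lt_trichotomy (R k) (R kM) with h' | h' | h'
        · exact Or.inr (Or.inl ⟨hk, h, h'⟩)
        · exact absurd h' d1
        · exact Or.inr (Or.inr ⟨hk, h'⟩)
    have e0 := card_le_card hcov
    have e1 := card_union_le (O.filter (fun k => R k < R km))
      (O.filter (fun k => R km < R k ∧ R k < R kM) ∪ O.filter (fun k => R kM < R k))
    have e2 := card_union_le (O.filter (fun k => R km < R k ∧ R k < R kM))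
      (O.filter (fun k => R kM < R k))
    have f1 := cardle (O.filter (fun k => R k < R km)) R 0 (R km)
      (fun k hk => ⟨Nat.zero_le _, (mem_filter.1 hk).2⟩)
      (fun k hk l hl h => hRi k (hOm k (mem_filter.1 hk).1).1 l (hOm l (mem_filter.1 hl).1).1 h)
    have f2 := cardle (O.filter (fun k => R km < R k ∧ R k < R kM)) B (B kM + 1) (B km)
      (fun k hk => by
        have h := mem_filter.1 hk
        have a1 := hnest km hkm k (hOm k h.1).1 h.2.1
        have a2 := hnest k (hOm k h.1).1 kM hkM h.2.2
        exact ⟨a2, a1⟩)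
      (fun k hk l hl h => hBi k (hOm k (mem_filter.1 hk).1).1 l (hOm l (mem_filter.1 hl).1).1 h)
    have f3 := cardle (O.filter (fun k => R kM < R k)) R (R kM + 1) n
      (fun k hk => by
        have h := mem_filter.1 hk
        exact ⟨h.2, hR k (hOm k h.1).1⟩)
      (fun k hk l hl h => hRi k (hOm k (mem_filter.1 hk).1).1 l (hOm l (mem_filter.1 hl).1).1 h)
    omega
  · exact absurd (hRi km hkm kM hkM hc).symm hkne
  · have hbb := hnest kM hkM km hkm hc
    have hcov : O ⊆ O.filter (fun k => R k < R kM) ∪ (O.filter (fun k => R kM < R k ∧ R k < R km)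
        ∪ O.filter (fun k => R km < R k)) := by
      intro k hk
      have hk' := hOm k hk
      have d1 : R k ≠ R kM := fun h => hk'.2.1 (hRi k hk'.1 kM hkM h)
      have d2 : R k ≠ R km := fun h => hk'.2.2 (hRi k hk'.1 km hkm h)
      simp only [mem_union, mem_filter]
      rcases lt_trichotomy (R k) (R kM) with h | h | h
      · exact Or.inl ⟨hk, h⟩
      · exact absurd h d1
      · rcases lt_trichotomy (R k) (R km) with h' | h' | h'
        · exact Or.inr (Or.inl ⟨hk, h, h'⟩)
        · exact absurd h' d2
        · exact Or.inr (Or.inr ⟨hk, h'⟩)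
    have e0 := card_le_card hcov
    have e1 := card_union_le (O.filter (fun k => R k < R kM))
      (O.filter (fun k => R kM < R k ∧ R k < R km) ∪ O.filter (fun k => R km < R k))
    have e2 := card_union_le (O.filter (fun k => R kM < R k ∧ R k < R km))
      (O.filter (fun k => R km < R k))
    have f1 := cardle (O.filter (fun k => R k < R kM)) B (B kM + 1) (2 * n)
      (fun k hk => by
        have h := mem_filter.1 hk
        exact ⟨hnest k (hOm k h.1).1 kM hkM h.2, (hB k (hOm k h.1).1).2⟩)
      (fun k hk l hl h => hBi k (hOm k (mem_filter.1 hk).1).1 l (hOm l (mem_filter.1 hl).1).1 h)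
    have f2 := cardle (O.filter (fun k => R kM < R k ∧ R k < R km)) R (R kM + 1) (R km)
      (fun k hk => (mem_filter.1 hk).2)
      (fun k hk l hl h => hRi k (hOm k (mem_filter.1 hk).1).1 l (hOm l (mem_filter.1 hl).1).1 h)
    have f3 := cardle (O.filter (fun k => R km < R k)) B n (B km)
      (fun k hk => by
        have h := mem_filter.1 hk
        exact ⟨(hB k (hOm k h.1).1).1, hnest km hkm k (hOm k h.1).1 h.2⟩)
      (fun k hk l hl h => hBi k (hOm k (mem_filter.1 hk).1).1 l (hOm l (mem_filter.1 hl).1).1 h)
    omega

lemma path_bound0 (n ℓ : ℕ) (u : ℕ → ℕ)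
    (hcol : ∀ k, k + 2 ≤ ℓ → (u k < n ∧ u (k + 2) < n) ∨
      (n ≤ u k ∧ u k < 2 * n ∧ n ≤ u (k + 2) ∧ u (k + 2) < 2 * n))
    (halt : ∀ k, k + 3 ≤ ℓ → ((u k < u (k + 2) ∧ u (k + 3) < u (k + 1)) ∨
      (u (k + 2) < u k ∧ u (k + 1) < u (k + 3))))
    (hs : ∀ k < ℓ, ∀ l < ℓ, u k + u (k + 1) = u l + u (l + 1) → k = l)
    (hn : 1 ≤ n) (hst2 : 2 ≤ ℓ → u 0 < u 2) :
    3 * ℓ ≤ 2 * n + 4 := by
  classical
  rcases Nat.lt_or_ge ℓ 3 with hl | hl
  · omega
  -- colour classes along even steps
  have hcol2 : ∀ j k, k + 2 * j ≤ ℓ → 1 ≤ j → (u k < n ∧ u (k + 2 * j) < n) ∨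
      (n ≤ u k ∧ u k < 2 * n ∧ n ≤ u (k + 2 * j) ∧ u (k + 2 * j) < 2 * n) := by
    intro j k
    induction j with
    | zero => intro _ h; omega
    | succ j ih =>
      intro h _
      rcases Nat.eq_zero_or_pos j with rfl | hj
      · exact hcol k (by omega)
      · have a := ih (by omega) hj
        have b := hcol (k + 2 * j) (by omega)
        rw [show k + 2 * (j + 1) = k + 2 * j + 2 by ring]
        omega
  set d : ℕ → ℤ := fun k => (u k : ℤ) + u (k + 1) with hd
  -- signs along the path
  have hsign : ∀ j, 2 * j + 2 ≤ ℓ → u (2 * j) < u (2 * j + 2) := by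
    intro j
    induction j with
    | zero => intro _; exact hst2 (by omega)
    | succ j ih =>
      intro h
      have a := ih (by omega)
      have b := halt (2 * j) (by omega)
      have c := halt (2 * j + 1) (by omega)
      rw [show 2 * (j + 1) = 2 * j + 2 by ring]
      have e1 : 2 * j + 1 + 2 = 2 * j + 3 := by ring
      have e2 : 2 * j + 1 + 3 = 2 * j + 2 + 2 := by ring
      have e3 : 2 * j + 1 + 1 = 2 * j + 2 := by ring
      rw [e1, e2, e3] at c
      omega
  have hsign2 : ∀ j, 2 * j + 3 ≤ ℓ → u (2 * j + 3) < u (2 * j + 1) := by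
    intro j h
    have a := hsign j (by omega)
    have b := halt (2 * j) (by omega)
    omega
  set x : ℕ → ℤ := fun j => d (2 * j) with hx
  set y : ℕ → ℤ := fun j => d (2 * j + 1) with hy
  have hxy1 : ∀ j, 2 * j + 1 < ℓ → x j < y j := by
    intro j hj
    have := hsign j (by omega)
    simp only [hx, hy, hd]
    rw [show 2 * j + 1 + 1 = 2 * j + 2 by ring]
    omega
  have hxy2 : ∀ j, 2 * j + 2 < ℓ → x (j + 1) < y j := by
    intro j hj
    have := hsign2 j (by omega)
    simp only [hx, hy, hd]
    rw [show 2 * (j + 1) = 2 * j + 2 by ring,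
      show 2 * j + 2 + 1 = 2 * j + 3 by ring,
      show 2 * j + 1 + 1 = 2 * j + 2 by ring]
    omega
  have hdinj : ∀ k < ℓ, ∀ l < ℓ, d k = d l → k = l := by
    intro k hk l hl h
    apply hs k hk l hl
    simp only [hd] at h
    exact_mod_cast h
  have hxx : ∀ i, 2 * i < ℓ → ∀ j, 2 * j < ℓ → x i = x j → i = j := by
    intro i hi j hj h
    have := hdinj _ hi _ hj h
    omega
  have hyy : ∀ i, 2 * i + 1 < ℓ → ∀ j, 2 * j + 1 < ℓ → y i = y j → i = j := by
    intro i hi j hj h
    have := hdinj _ hi _ hj h
    omega
  have hxyne : ∀ i, 2 * i < ℓ → ∀ j, 2 * j + 1 < ℓ → x i ≠ y j := by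
    intro i hi j hj h
    have := hdinj _ hi _ hj h
    omega
  have tel1 : ∀ J, ∑ j ∈ range J, (y j - x j) = (u (2 * J) : ℤ) - u 0 := by
    intro J
    induction J with
    | zero => simp
    | succ J ih =>
      rw [sum_range_succ, ih]
      simp only [hx, hy, hd]
      rw [show 2 * (J + 1) = 2 * J + 1 + 1 by ring]
      ring
  have tel2 : ∀ J, ∑ j ∈ range J, (y j - x (j + 1)) = (u 1 : ℤ) - u (2 * J + 1) := by
    intro J
    induction J with
    | zero => simp
    | succ J ih =>
      rw [sum_range_succ, ih]
      simp only [hx, hy, hd]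
      rw [show 2 * (J + 1) = 2 * J + 1 + 1 by ring]
      ring
  rcases Nat.even_or_odd' ℓ with ⟨K, hK | hK⟩
  · -- `ℓ = 2K`
    have hK2 : 2 ≤ K := by omega
    rcases lt_or_ge (x 0) (y (K - 1)) with hend | hend
    · have z := zigzag K (by omega) x y ∅ (by simp) (fun j hj => hxy1 j (by omega))
        (fun j hj => hxy2 j (by omega))
        (fun i hi j hj => hxx i (by omega) j (by omega))
        (fun i hi j hj => hyy i (by omega) j (by omega))
        (fun i hi j hj => hxyne i (by omega) j (by omega)) hend
      rw [tel1, card_empty] at z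
      have c := hcol2 K 0 (by omega) (by omega)
      rw [Nat.zero_add] at c
      omega
    · have hlt : y (K - 1) < x 0 :=
        lt_of_le_of_ne hend (fun h => hxyne 0 (by omega) (K - 1) (by omega) h.symm)
      set x' : ℕ → ℤ := fun j => x (K - 1 - j) with hx'
      set y' : ℕ → ℤ := fun j => y (K - 2 - j) with hy'
      have l1 := hxy1 (K - 1) (by omega)
      have l2 := hxy1 0 (by omega)
      have hEcard : ({x 0, y (K - 1)} : Finset ℤ).card = 2 :=
        card_pair (fun h => hxyne 0 (by omega) (K - 1) (by omega) h)
      have z := zigzag (K - 1) (by omega) x' y' {x 0, y (K - 1)}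
        (by
          intro e he
          have hx'0 : x' 0 = x (K - 1) := by simp only [hx', Nat.sub_zero]
          have hy'l : y' (K - 2) = y 0 := by simp only [hy', Nat.sub_self]
          rw [mem_insert, mem_singleton] at he
          rcases he with rfl | rfl
          · refine ⟨⟨0, by omega, by rw [hx'0]; linarith⟩, ⟨K - 2, by omega, by rw [hy'l]; linarith⟩, ?_⟩
            intro j hj
            simp only [hx', hy']
            refine ⟨fun h => ?_, hxyne 0 (by omega) _ (by omega)⟩
            have := hxx 0 (by omega) _ (by omega) h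
            omega
          · refine ⟨⟨0, by omega, by rw [hx'0]; linarith⟩, ⟨K - 2, by omega, by rw [hy'l]; linarith⟩, ?_⟩
            intro j hj
            simp only [hx', hy']
            refine ⟨fun h => hxyne _ (by omega) (K - 1) (by omega) h.symm, fun h => ?_⟩
            have := hyy (K - 1) (by omega) _ (by omega) h
            omega)
        (by
          intro j hj
          simp only [hx', hy']
          have := hxy2 (K - 2 - j) (by omega)
          rwa [show K - 2 - j + 1 = K - 1 - j by omega] at this)
        (by
          intro j hj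
          simp only [hx', hy']
          have := hxy1 (K - 2 - j) (by omega)
          rwa [show K - 1 - (j + 1) = K - 2 - j by omega])
        (by
          intro i hi j hj h
          have := hxx _ (by omega) _ (by omega) h
          omega)
        (by
          intro i hi j hj h
          have := hyy _ (by omega) _ (by omega) h
          omega)
        (by
          intro i hi j hj h
          exact hxyne _ (by omega) _ (by omega) h)
        (by
          simp only [hx', hy']
          rw [show K - 1 - 0 = K - 1 by omega, show K - 2 - (K - 1 - 1) = 0 by omega]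
          linarith)
      have hsumr : ∑ j ∈ range (K - 1), (y' j - x' j) =
          ∑ j ∈ range (K - 1), (y j - x (j + 1)) := by
        rw [← Finset.sum_range_reflect]
        apply sum_congr rfl
        intro j hj
        rw [mem_range] at hj
        simp only [hx', hy']
        rw [show K - 2 - (K - 1 - 1 - j) = j by omega, show K - 1 - (K - 1 - 1 - j) = j + 1 by omega]
      rw [hsumr, tel2, hEcard] at z
      have c := hcol2 (K - 1) 1 (by omega) (by omega)
      rw [show 1 + 2 * (K - 1) = 2 * (K - 1) + 1 by ring] at c
      omega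
  · -- `ℓ = 2K + 1`
    have hK1 : 1 ≤ K := by omega
    have hlast := hxy2 (K - 1) (by omega)
    rw [show K - 1 + 1 = K by omega] at hlast
    rcases lt_or_ge (x 0) (x K) with hend | hend
    · have z := zigzag K (by omega) x y {x K}
        (by
          intro e he
          rw [mem_singleton] at he
          subst he
          refine ⟨⟨0, by omega, hend.le⟩, ⟨K - 1, by omega, hlast.le⟩, ?_⟩
          intro j hj
          refine ⟨fun h => ?_, hxyne K (by omega) j (by omega)⟩
          have := hxx K (by omega) j (by omega) h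
          omega)
        (fun j hj => hxy1 j (by omega))
        (fun j hj => hxy2 j (by omega))
        (fun i hi j hj => hxx i (by omega) j (by omega))
        (fun i hi j hj => hyy i (by omega) j (by omega))
        (fun i hi j hj => hxyne i (by omega) j (by omega)) (by linarith)
      rw [tel1, card_singleton] at z
      have c := hcol2 K 0 (by omega) (by omega)
      rw [Nat.zero_add] at c
      omega
    · have hlt : x K < x 0 :=
        lt_of_le_of_ne hend (fun h => by
          have := hxx K (by omega) 0 (by omega) h
          omega)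
      set x' : ℕ → ℤ := fun j => x (K - j) with hx'
      set y' : ℕ → ℤ := fun j => y (K - 1 - j) with hy'
      have l2 := hxy1 0 (by omega)
      have z := zigzag K (by omega) x' y' {x 0}
        (by
          intro e he
          rw [mem_singleton] at he
          subst he
          have hx'0 : x' 0 = x K := by simp only [hx', Nat.sub_zero]
          have hy'l : y' (K - 1) = y 0 := by simp only [hy', Nat.sub_self]
          refine ⟨⟨0, by omega, by rw [hx'0]; linarith⟩, ⟨K - 1, by omega, by rw [hy'l]; linarith⟩, ?_⟩
          intro j hj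
          simp only [hx', hy']
          refine ⟨fun h => ?_, hxyne 0 (by omega) _ (by omega)⟩
          have := hxx 0 (by omega) _ (by omega) h
          omega)
        (by
          intro j hj
          simp only [hx', hy']
          have := hxy2 (K - 1 - j) (by omega)
          rwa [show K - 1 - j + 1 = K - j by omega] at this)
        (by
          intro j hj
          simp only [hx', hy']
          have := hxy1 (K - 1 - j) (by omega)
          rwa [show K - (j + 1) = K - 1 - j by omega])
        (by
          intro i hi j hj h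
          have := hxx _ (by omega) _ (by omega) h
          omega)
        (by
          intro i hi j hj h
          have := hyy _ (by omega) _ (by omega) h
          omega)
        (by
          intro i hi j hj h
          exact hxyne _ (by omega) _ (by omega) h)
        (by
          simp only [hx', hy']
          rw [show K - 0 = K by omega, show K - 1 - (K - 1) = 0 by omega]
          linarith)
      have hsumr : ∑ j ∈ range K, (y' j - x' j) = ∑ j ∈ range K, (y j - x (j + 1)) := by
        rw [← Finset.sum_range_reflect]
        apply sum_congr rfl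
        intro j hj
        rw [mem_range] at hj
        simp only [hx', hy']
        rw [show K - 1 - (K - 1 - j) = j by omega, show K - (K - 1 - j) = j + 1 by omega]
      rw [hsumr, tel2, card_singleton] at z
      have c := hcol2 K 1 (by omega) (by omega)
      rw [show 1 + 2 * K = 2 * K + 1 by ring] at c
      omega

/-- Zigzag paths whose consecutive sums are distinct: the path bound. `u` alternates between
`[0,n)` and `[n,2n)`, and the two colour classes move in opposite directions. -/
lemma path_bound (n ℓ : ℕ) (u : ℕ → ℕ) (hn : 1 ≤ n) (hu : ∀ k ≤ ℓ, u k < 2 * n)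
    (hne : 2 ≤ ℓ → u 0 ≠ u 2)
    (hcol : ∀ k, k + 2 ≤ ℓ → (u k < n ∧ u (k + 2) < n) ∨
      (n ≤ u k ∧ u k < 2 * n ∧ n ≤ u (k + 2) ∧ u (k + 2) < 2 * n))
    (halt : ∀ k, k + 3 ≤ ℓ → ((u k < u (k + 2) ∧ u (k + 3) < u (k + 1)) ∨
      (u (k + 2) < u k ∧ u (k + 1) < u (k + 3))))
    (hs : ∀ k < ℓ, ∀ l < ℓ, u k + u (k + 1) = u l + u (l + 1) → k = l) :
    3 * ℓ ≤ 2 * n + 4 := by
  by_cases h : 2 ≤ ℓ → u 0 < u 2
  · exact path_bound0 n ℓ u hcol halt hs hn h
  · push Not at h
    have hne' := hne h.1
    apply path_bound0 n ℓ (fun k => 2 * n - 1 - u k)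
    · intro k hk
      have := hcol k hk
      omega
    · intro k hk
      have := halt k hk
      have := hu k (by omega)
      have := hu (k + 1) (by omega)
      have := hu (k + 2) (by omega)
      have := hu (k + 3) (by omega)
      omega
    · intro k hk l hl he
      apply hs k hk l hl
      have := hu k (by omega)
      have := hu (k + 1) (by omega)
      have := hu l (by omega)
      have := hu (l + 1) (by omega)
      omega
    · exact hn
    · intro h2
      have := hu 0 (by omega)
      have := hu 2 h2
      have := h.2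
      omega

end Pool.Agent.R155.Harm
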