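import Mathlib
import Pool.Agent.R155.HarmC
import Pool.Agent.R155.HarmE

namespace Pool.Agent.R155.Harm

open Finset

lemma H_le_log (m : ℕ) (hm : 1 ≤ m) : H m ≤ 1 + Real.log m := by
  have h := harmonic_le_one_add_log m
  have e : H m = ((harmonic m : ℚ) : ℝ) := by
    unfold H harmonic
    push_cast
    apply sum_congr rfl
    intro d _
    rw [one_div]
  rw [e]
  exact h

/-- A rainbow chain containing half of the cells of a line. -/
lemma match_line (m K : ℕ) (hm : 0 < m) (hK : 0 < K) (β : ℕ → ℤ)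
    (hβ : ∀ i < 4 * K * m, ∀ j < 4 * K * m, β i = β j → i = j)
    (hbig : 48 * H m ≤ K) :
    ∃ a k, a < 2 * K * m ∧ k < K * m ∧ ∃ S ⊆ range m, m ≤ 2 * S.card ∧
      ∀ s ∈ S, ∀ t ∈ S, W K m a k β s = W K m a k β t → s = t := by
  classical
  obtain ⟨a, k, ha, hk, hle⟩ := exists_line m K 0 hm hK β hβ
    (fun _ => 1) (fun d => by positivity)
  refine ⟨a, k, ha, hk, ?_⟩
  set w := W K m a k β with hw
  set Φ : ℕ → ℝ := fun s => ∑ t ∈ (range m).erase s, pot 0 (fun _ => 1) (w t - w s) with hΦ
  have hΦ0 : ∀ s, 0 ≤ Φ s := fun s => sum_nonneg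
    (fun t _ => pot_nonneg _ _ (fun d => by positivity) _)
  have hKpos : (0 : ℝ) < K := by exact_mod_cast hK
  have hmpos : (0 : ℝ) < m := by exact_mod_cast hm
  have htot : ∑ s ∈ range m, Φ s ≤ m / 2 := by
    refine hle.trans ?_
    rw [zero_add, sum_range_one, div_le_div_iff₀ hKpos (by norm_num)]
    have := mul_le_mul_of_nonneg_left hbig hmpos.le
    nlinarith [this]
  set B := (range m).filter (fun s => 1 ≤ Φ s) with hB
  have hBcard : (B.card : ℝ) * 1 ≤ m / 2 := by
    calc (B.card : ℝ) * 1 = ∑ _s ∈ B, (1 : ℝ) := by rw [sum_const, nsmul_eq_mul]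
      _ ≤ ∑ s ∈ B, Φ s := sum_le_sum (fun s hs => by rw [hB, mem_filter] at hs; exact hs.2)
      _ ≤ ∑ s ∈ range m, Φ s :=
          sum_le_sum_of_subset_of_nonneg (filter_subset _ _) (fun s _ _ => hΦ0 s)
      _ ≤ m / 2 := htot
  have hBc : 2 * B.card ≤ m := by
    have : (2 * B.card : ℝ) ≤ m := by linarith
    exact_mod_cast this
  refine ⟨range m \ B, sdiff_subset, ?_, ?_⟩
  · have hc := card_sdiff_of_subset (show B ⊆ range m from filter_subset _ _)
    rw [hc, card_range]; omega
  · intro s hs t ht hst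
    by_contra hne
    rw [mem_sdiff, hB, mem_filter] at hs
    rw [mem_sdiff] at ht
    apply hs.2
    refine ⟨hs.1, ?_⟩
    have h1 : pot 0 (fun _ => 1) (w t - w s) = 1 := by
      rw [hst, sub_self, pot_eq]; simp
    calc (1 : ℝ) = pot 0 (fun _ => 1) (w t - w s) := h1.symm
      _ ≤ Φ s := by
        apply single_le_sum (f := fun t => pot 0 (fun _ => 1) (w t - w s))
        · intro i _; exact pot_nonneg _ _ (fun d => by positivity) _
        · rw [mem_erase]; exact ⟨fun h => hne h.symm, ht.1⟩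

/-- A zigzag path with distinct weights along a line. -/
lemma path_line (m K : ℕ) (hm : 0 < m) (hK : 0 < K) (β : ℕ → ℤ)
    (hβ : ∀ i < 4 * K * m, ∀ j < 4 * K * m, β i = β j → i = j)
    (hbig : 576 * H m * H (2 * m + 1) ≤ K) :
    ∃ (q : ℕ) (c r : ℕ → ℕ), m ≤ 2 * (q + 1) ∧ (∀ k ≤ q, c k < 4 * K * m) ∧ (∀ k < q, r k < m) ∧
      (∀ k l, k < l → l ≤ q → c k < c l) ∧ (∀ k l, k < l → l < q → r k < r l) ∧
      ∀ i < 2 * q, ∀ j < 2 * q, (r (i / 2) : ℤ) + β (c ((i + 1) / 2)) =
        r (j / 2) + β (c ((j + 1) / 2)) → i = j := by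
  classical
  obtain ⟨a, k, ha, hk, S, hSm, hScard, hS⟩ := good_set m K hm hK β hβ hbig
  have hSpos : 0 < S.card := by omega
  set e := S.orderEmbOfFin rfl with he
  obtain ⟨q, hq⟩ : ∃ q, S.card = q + 1 := ⟨S.card - 1, by omega⟩
  set σ : ℕ → ℕ := fun i => if h : i < S.card then e ⟨i, h⟩ else 0 with hσ
  have hσS : ∀ i ≤ q, σ i ∈ S := by
    intro i hi
    have h : i < S.card := by omega
    simp only [hσ, dif_pos h]
    exact Finset.orderEmbOfFin_mem S rfl _
  have hσm : ∀ i ≤ q, σ i < m := fun i hi => mem_range.1 (hSm (hσS i hi))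
  have hσlt : ∀ i j, i < j → j ≤ q → σ i < σ j := by
    intro i j hij hj
    have h1 : i < S.card := by omega
    have h2 : j < S.card := by omega
    simp only [hσ, dif_pos h1, dif_pos h2]
    exact e.strictMono (by simpa using hij)
  obtain ⟨r, hr1, hr2⟩ := links m q (fun t => β (col K m a k t)) σ hσlt hσm
    (fun i hi g hg1 hg2 => hS (σ i) (hσS i hi) g hg1 hg2)
  have hclt : ∀ i j, i < j → j ≤ q → col K m a k (σ i) < col K m a k (σ j) :=
    fun i j hij hj => col_strict hK (hσlt i j hij hj)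
  have hcb : ∀ i ≤ q, col K m a k (σ i) < 4 * K * m := fun i hi => col_lt ha hk (hσm i hi)
  refine ⟨q, fun i => col K m a k (σ i), r, by omega, hcb, ?_, hclt, ?_, ?_⟩
  · intro i hi
    have := (hr1 i hi).2
    have := hσm (i + 1) (by omega)
    omega
  · intro i j hij hj
    have h1 := (hr1 i (by omega)).2
    have h2 := (hr1 j hj).1
    rcases Nat.eq_or_lt_of_le (show i + 1 ≤ j by omega) with h | h
    · rw [h] at h1; omega
    · have := hσlt (i + 1) j h (by omega); omega
  · intro i hi j hj hij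
    have hhalf : i / 2 < q := by omega
    have hhalf' : j / 2 < q := by omega
    by_cases hkk : i / 2 = j / 2
    · -- same link
      rw [hkk] at hij
      have hb : β (col K m a k (σ ((i + 1) / 2))) = β (col K m a k (σ ((j + 1) / 2))) := by
        beta_reduce at hij
        linarith
      have hcol := hβ _ (hcb _ (by omega)) _ (hcb _ (by omega)) hb
      have : (i + 1) / 2 = (j + 1) / 2 := by
        rcases lt_trichotomy ((i + 1) / 2) ((j + 1) / 2) with h | h | h
        · have := hclt _ _ h (by omega); omega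
        · exact h
        · have := hclt _ _ h (by omega); omega
      omega
    · exfalso
      have h := hr2 (i / 2) hhalf (j / 2) hhalf' hkk
      have h' := hr2 (j / 2) hhalf' (i / 2) hhalf (Ne.symm hkk)
      beta_reduce at hij h h'
      rcases Nat.even_or_odd' i with ⟨x, hx | hx⟩
      · rcases Nat.even_or_odd' j with ⟨y, hy | hy⟩
        · rw [show (i + 1) / 2 = i / 2 by omega, show (j + 1) / 2 = j / 2 by omega] at hij
          exact h.1 hij
        · rw [show (i + 1) / 2 = i / 2 by omega, show (j + 1) / 2 = j / 2 + 1 by omega] at hij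
          exact h.2.1 hij
      · rcases Nat.even_or_odd' j with ⟨y, hy | hy⟩
        · rw [show (i + 1) / 2 = i / 2 + 1 by omega, show (j + 1) / 2 = j / 2 by omega] at hij
          exact h'.2.1 hij.symm
        · rw [show (i + 1) / 2 = i / 2 + 1 by omega, show (j + 1) / 2 = j / 2 + 1 by omega] at hij
          exact h.2.2 hij

end Pool.Agent.R155.Harm
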