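import Mathlib

/-! Broadcast irredundance versus irredundance in trees. -/

set_option autoImplicit false

namespace Pool.Agent.R155.IrTree

open SimpleGraph Finset

universe u
variable {V : Type u}

/-- `ClN T v w`: the vertex `w` lies in the closed neighbourhood of `v`. -/
def ClN (T : SimpleGraph V) (v w : V) : Prop := w = v ∨ T.Adj v w

/-- Private neighbourhood of `s` with respect to `S`. -/
def PN (T : SimpleGraph V) (S : Finset V) (s : V) : Set V :=
  {w | ClN T s w ∧ ∀ s' ∈ S, s' ≠ s → ¬ ClN T s' w}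

/-- Irredundant sets. -/
def IrrSet (T : SimpleGraph V) (S : Finset V) : Prop := ∀ s ∈ S, (PN T S s).Nonempty

/-- Maximal irredundant sets. -/
def MaxIrrSet (T : SimpleGraph V) (S : Finset V) : Prop :=
  IrrSet T S ∧ ∀ S' : Finset V, S ⊂ S' → ¬ IrrSet T S'

/-- The irredundance number. -/
noncomputable def ir (T : SimpleGraph V) : ℕ :=
  sInf {k | ∃ S : Finset V, MaxIrrSet T S ∧ S.card = k}

section fin
variable [Fintype V]

/-- Eccentricity. -/
noncomputable def ecc (T : SimpleGraph V) (v : V) : ℕ := univ.sup fun w => T.dist v w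

/-- Diameter. -/
noncomputable def diameter (T : SimpleGraph V) : ℕ := univ.sup fun v => ecc T v

/-- Broadcasts. -/
def IsBroadcast (T : SimpleGraph V) (f : V → ℕ) : Prop := ∀ v, f v ≤ diameter T ∧ f v ≤ ecc T v

/-- Cost of a broadcast. -/
def cost (f : V → ℕ) : ℕ := ∑ v, f v

end fin

/-- `Hears T f w v`: the vertex `w` hears `f` from `v`. -/
def Hears (T : SimpleGraph V) (f : V → ℕ) (w v : V) : Prop := 0 < f v ∧ T.dist w v ≤ f v

open Classical in
/-- Private boundary of `v`. -/
def PB (T : SimpleGraph V) (f : V → ℕ) (v : V) : Set V :=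
  {w | T.dist w v ≤ f v ∧ ∀ x, ¬ Hears T (Function.update f v (f v - 1)) w x}

/-- Irredundance of a broadcast. -/
def IrrB (T : SimpleGraph V) (f : V → ℕ) : Prop := ∀ v, 0 < f v → (PB T f v).Nonempty

section fin
variable [Fintype V]

/-- Maximal irredundant broadcasts. -/
def MaxIrrB (T : SimpleGraph V) (f : V → ℕ) : Prop :=
  IsBroadcast T f ∧ IrrB T f ∧
    ∀ g : V → ℕ, IsBroadcast T g → (∀ w, f w ≤ g w) → (∃ w, f w < g w) → ¬ IrrB T g

/-- The broadcast irredundance number. -/
noncomputable def irb (T : SimpleGraph V) : ℕ := sInf {k | ∃ f : V → ℕ, MaxIrrB T f ∧ cost f = k}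

/-- Dominating broadcasts. -/
def DomB (T : SimpleGraph V) (f : V → ℕ) : Prop := IsBroadcast T f ∧ ∀ w, ∃ v, Hears T f w v

/-- The broadcast domination number. -/
noncomputable def gammab (T : SimpleGraph V) : ℕ := sInf {k | ∃ f : V → ℕ, DomB T f ∧ cost f = k}

end fin

/-! ### Distances in trees -/

theorem dist_split {T : SimpleGraph V} {a b c : V} (q : T.Walk a b) (hq : q.length = T.dist a b)
    (hT : T.Connected) (hc : c ∈ q.support) : T.dist a c + T.dist c b = T.dist a b := by
  classical
  have h1 : T.dist a c ≤ (q.takeUntil c hc).length := dist_le _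
  have h2 : T.dist c b ≤ (q.dropUntil c hc).length := dist_le _
  have h3 : (q.takeUntil c hc).length + (q.dropUntil c hc).length = q.length := by
    rw [← Walk.length_append, Walk.take_spec]
  have h4 : T.dist a b ≤ T.dist a c + T.dist c b := hT.dist_triangle
  omega

/-- The midpoint of a geodesic. -/
theorem exists_mid {T : SimpleGraph V} (hT : T.IsTree) (a b : V) :
    ∃ c, ∀ z, T.dist a z ≤ T.dist a b → T.dist z b ≤ T.dist a b →
      T.dist c z ≤ (T.dist a b + 1) / 2 := by
  classical
  have hC := hT.connected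
  obtain ⟨p, hpp, hp⟩ := hC.exists_path_of_dist a b
  set D := T.dist a b with hD
  refine ⟨p.getVert (D / 2), fun z hz1 hz2 => ?_⟩
  set c := p.getVert (D / 2) with hc
  have h1 : T.dist a c ≤ D / 2 := by
    have := dist_le (p.take (D / 2))
    rw [Walk.take_length] at this
    exact this.trans (min_le_left _ _)
  have h2 : T.dist c b ≤ D - D / 2 := by
    have := dist_le (p.drop (D / 2))
    rw [Walk.drop_length, hp] at this
    exact this
  have h3 : D ≤ T.dist a c + T.dist c b := hC.dist_triangle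
  have hcs : c ∈ p.support := Walk.getVert_mem_support _ _
  obtain ⟨q1, -, hq1⟩ := hC.exists_path_of_dist a z
  obtain ⟨q2, -, hq2⟩ := hC.exists_path_of_dist z b
  have hu : (q1.append q2).bypass = p :=
    (hT.existsUnique_path a b).unique (Walk.bypass_isPath _) hpp
  have hmem : c ∈ (q1.append q2).support := by
    apply Walk.support_bypass_subset_support
    rw [hu]; exact hcs
  rw [Walk.mem_support_append_iff] at hmem
  rcases hmem with h | h
  · have := dist_split q1 hq1 hC h
    omega
  · have := dist_split q2 hq2 hC h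
    rw [T.dist_comm (u := z) (v := c)] at this
    omega

theorem dist_le_one {T : SimpleGraph V} {v w : V} (h : ClN T v w) : T.dist v w ≤ 1 := by
  rcases h with h | h
  · subst h; simp
  · exact (dist_eq_one_iff_adj.2 h).le

theorem ClN_symm {T : SimpleGraph V} {v w : V} (h : ClN T v w) : ClN T w v := by
  rcases h with h | h
  · exact Or.inl h.symm
  · exact Or.inr h.symm

theorem common_unique {T : SimpleGraph V} (hT : T.IsTree) {x y a b : V} (hxy : x ≠ y)
    (h1 : T.Adj x a) (h2 : T.Adj a y) (h3 : T.Adj x b) (h4 : T.Adj b y) : a = b := by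
  classical
  have p1 : (Walk.cons h1 (Walk.cons h2 Walk.nil)).IsPath := by
    simp [Walk.isPath_def, Walk.support_cons, h1.ne, h2.ne, hxy]
  have p2 : (Walk.cons h3 (Walk.cons h4 Walk.nil)).IsPath := by
    simp [Walk.isPath_def, Walk.support_cons, h3.ne, h4.ne, hxy]
  have h := (hT.existsUnique_path x y).unique p1 p2
  have := congrArg (fun w => w.getVert 1) h
  simpa using this

/-! ### Clusters -/

/-- A walk in `H` whose steps have length at most two meets all pairs of consecutive levels. -/
theorem level_aux {T H : SimpleGraph V} (hC : T.Connected) (C : Finset V)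
    (hH : ∀ x y, H.Adj x y → T.dist x y ≤ 2) (hcl : ∀ x ∈ C, ∀ y, H.Adj x y → y ∈ C)
    (a : V) (m : ℕ) {z b : V} (p : H.Walk z b) :
    z ∈ C → T.dist a z ≤ m + 1 → m ≤ T.dist a b → ∃ y ∈ C, m ≤ T.dist a y ∧ T.dist a y ≤ m + 1 := by
  induction p with
  | nil => intro h1 h2 h3; exact ⟨_, h1, h3, h2⟩
  | @cons u v w h q ih =>
    intro h1 h2 h3
    by_cases hm : m ≤ T.dist a u
    · exact ⟨u, h1, hm, h2⟩
    · refine ih (hcl _ h1 _ h) ?_ h3
      have h4 := hH _ _ h
      have h5 : T.dist a v ≤ T.dist a u + T.dist u v := hC.dist_triangle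
      omega

theorem exists_center {T H : SimpleGraph V} (hT : T.IsTree) (C : Finset V)
    (hH : ∀ x y, H.Adj x y → T.dist x y ≤ 2) (hcl : ∀ x ∈ C, ∀ y, H.Adj x y → y ∈ C)
    (hconn : ∀ x ∈ C, ∀ y ∈ C, H.Reachable x y) (hpart : ∀ x ∈ C, ∃ y ∈ C, T.Adj x y)
    (h3 : 3 ≤ C.card) : ∃ c, ∀ z ∈ C, T.dist c z ≤ C.card - 2 := by
  classical
  have hC := hT.connected
  have hne : C.Nonempty := card_pos.1 (by omega)
  obtain ⟨⟨a, b⟩, hab, hmax⟩ := (C ×ˢ C).exists_max_image (fun q : V × V => T.dist q.1 q.2)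
    (hne.product hne)
  rw [mem_product] at hab
  obtain ⟨ha, hb⟩ := hab
  simp only at ha hb
  have hmax' : ∀ x ∈ C, ∀ y ∈ C, T.dist x y ≤ T.dist a b := fun x hx y hy =>
    hmax (x, y) (mem_product.2 ⟨hx, hy⟩)
  set D := T.dist a b with hD
  have hlev : ∀ m, m ≤ D → ∃ y ∈ C, m ≤ T.dist a y ∧ T.dist a y ≤ m + 1 := by
    intro m hm
    obtain ⟨p⟩ := hconn a ha b hb
    exact level_aux hC C hH hcl a m p ha (by simp) hm
  obtain ⟨a', ha', haa'⟩ := hpart a ha
  obtain ⟨b', hb', hbb'⟩ := hpart b hb
  have hda' : T.dist a a' = 1 := dist_eq_one_iff_adj.2 haa'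
  have hkey : D ≤ 2 * C.card - 4 := by
    by_cases hD2 : D ≤ 2
    · omega
    -- the element `a` and its partner
    have himg1 : Finset.range (D / 2 + 1) ⊆ (C.erase a').image (fun z => T.dist a z / 2) := by
      intro s hs
      rw [mem_range] at hs
      rw [mem_image]
      rcases Nat.eq_zero_or_pos s with h0 | h0
      · subst h0
        exact ⟨a, mem_erase.2 ⟨haa'.ne, ha⟩, by simp⟩
      · obtain ⟨y, hy, hy1, hy2⟩ := hlev (2 * s) (by omega)
        refine ⟨y, mem_erase.2 ⟨?_, hy⟩, by omega⟩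
        rintro rfl
        omega
    rcases Nat.even_or_odd D with hev | hodd
    · have h := (card_le_card himg1).trans card_image_le
      rw [card_range, card_erase_of_mem ha'] at h
      obtain ⟨k, hk⟩ := hev
      omega
    · have hdb' : T.dist a b' = D - 1 := by
        have h1 := hT.dist_eq_dist_add_one_of_adj a hbb'
        have h2 := hmax' a ha b' hb'
        rcases h1 with h1 | h1 <;> omega
      have hne' : b' ≠ a' := by
        rintro rfl
        omega
      have himg2 : Finset.range (D / 2 + 1) ⊆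
          ((C.erase a').erase b').image (fun z => T.dist a z / 2) := by
        intro s hs
        have hs' := hs
        rw [mem_range] at hs
        rw [mem_image]
        by_cases hs1 : s = D / 2
        · refine ⟨b, mem_erase.2 ⟨hbb'.ne, mem_erase.2 ⟨?_, hb⟩⟩, ?_⟩
          · rintro rfl
            omega
          · rw [← hD, hs1]
        · obtain ⟨y, hy, hy1⟩ := mem_image.1 (himg1 hs')
          refine ⟨y, mem_erase.2 ⟨?_, hy⟩, hy1⟩
          rintro rfl
          rw [hdb'] at hy1
          obtain ⟨k, hk⟩ := hodd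
          omega
      have h := (card_le_card himg2).trans card_image_le
      rw [card_range, card_erase_of_mem (mem_erase.2 ⟨hne', hb'⟩), card_erase_of_mem ha'] at h
      obtain ⟨k, hk⟩ := hodd
      omega
  obtain ⟨c, hc⟩ := exists_mid hT a b
  refine ⟨c, fun z hz => ?_⟩
  have := hc z (hmax' a ha z hz) (hmax' z hz b hb)
  omega

/-- The vertices of `X` with a neighbour in `X`. -/
def Nis (T : SimpleGraph V) (X : Finset V) (z : V) : Prop := z ∈ X ∧ ∃ y ∈ X, T.Adj z y

/-- The cluster graph. -/
def CG (T : SimpleGraph V) (X : Finset V) : SimpleGraph V :=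
  SimpleGraph.fromRel fun a b => Nis T X a ∧ Nis T X b ∧ T.dist a b ≤ 2

theorem CG_adj {T : SimpleGraph V} {X : Finset V} {a b : V} :
    (CG T X).Adj a b ↔ a ≠ b ∧ Nis T X a ∧ Nis T X b ∧ T.dist a b ≤ 2 := by
  unfold CG
  rw [SimpleGraph.fromRel_adj]
  constructor
  · rintro ⟨h, h1 | h1⟩
    · exact ⟨h, h1⟩
    · exact ⟨h, h1.2.1, h1.1, by rw [T.dist_comm]; exact h1.2.2⟩
  · rintro ⟨h, h1⟩
    exact ⟨h, Or.inl h1⟩

theorem sum_single [Fintype V] [DecidableEq V] (c : V) (r : ℕ) :
    ∑ v, (if v = c then r else 0) = r := by simp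

theorem hears_single {T : SimpleGraph V} [DecidableEq V] {c v : V} {r : ℕ} (hr : 0 < r)
    (h : T.dist v c ≤ r) : Hears T (fun w => if w = c then r else 0) v c := by
  unfold Hears
  simp [hr, h]

theorem local_claim [Fintype V] {T : SimpleGraph V} (hT : T.IsTree) (X : Finset V)
    (hX : IrrSet T X) (K : Finset V) (hK : K ⊆ X)
    (hcl : ∀ x ∈ K, ∀ y, (CG T X).Adj x y → y ∈ K)
    (hconn : ∀ x ∈ K, ∀ y ∈ K, (CG T X).Reachable x y) :
    ∃ g : V → ℕ, ∑ v, g v ≤ K.card ∧
      (∀ v, (∀ x ∈ X, ¬ ClN T x v) → ∀ x ∈ K, (∀ w ∈ PN T X x, ClN T v w) →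
        ∃ w, Hears T g v w) ∧
      (∀ x ∈ K, ∀ v, ClN T x v →
        (∃ w, Hears T g v w) ∨ (∃ z ∈ X, ¬ Nis T X z ∧ ClN T z v)) ∧
      (∀ x ∈ K, ¬ Nis T X x → ∀ v, ClN T x v → ∃ w, Hears T g v w) := by
  classical
  have hC := hT.connected
  -- the distance from a vertex served by `x`
  have hserve : ∀ v, ∀ x ∈ K, (∀ w ∈ PN T X x, ClN T v w) → T.dist v x ≤ 2 := by
    intro v x hx h
    obtain ⟨w, hw⟩ := hX x (hK hx)
    have h1 := dist_le_one (h w hw)
    have h2 := dist_le_one (ClN_symm hw.1)
    have h3 : T.dist v x ≤ T.dist v w + T.dist w x := hC.dist_triangle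
    omega
  have hnb : ∀ v x, ClN T x v → T.dist v x ≤ 1 := fun v x h => dist_le_one (ClN_symm h)
  rcases K.eq_empty_or_nonempty with rfl | hne
  · exact ⟨fun _ => 0, by simp, by simp, by simp, by simp⟩
  by_cases hiso : ∃ x ∈ K, ¬ Nis T X x
  · obtain ⟨x, hx, hxi⟩ := hiso
    have hall : ∀ y ∈ K, y = x := by
      intro y hy
      obtain ⟨p⟩ := hconn x hx y hy
      cases p with
      | nil => rfl
      | cons h q => exact absurd (CG_adj.1 h).2.1 hxi
    refine ⟨fun w => if w = x then 1 else 0, ?_, ?_, ?_, ?_⟩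
    · rw [sum_single]; exact card_pos.2 hne
    · intro v hv y hy h
      rw [hall y hy] at h
      exfalso
      have hxp : x ∈ PN T X x := by
        refine ⟨Or.inl rfl, fun s' hs' hne' hcl' => ?_⟩
        rcases hcl' with h1 | h1
        · exact hne' h1.symm
        · exact hxi ⟨hK hx, s', hs', h1.symm⟩
      exact hv x (hK hx) (ClN_symm (h x hxp))
    · intro y hy v hv
      rw [hall y hy] at hv
      exact Or.inl ⟨x, hears_single one_pos (hnb v x hv)⟩
    · intro y hy _ v hv
      rw [hall y hy] at hv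
      exact ⟨x, hears_single one_pos (hnb v x hv)⟩
  push Not at hiso
  have hpart : ∀ x ∈ K, ∃ y ∈ K, T.Adj x y := by
    intro x hx
    obtain ⟨hxX, y, hy, hxy⟩ := hiso x hx
    refine ⟨y, hcl x hx y ?_, hxy⟩
    rw [CG_adj]
    exact ⟨hxy.ne, hiso x hx, ⟨hy, x, hxX, hxy.symm⟩,
      (dist_eq_one_iff_adj.2 hxy).le.trans (by norm_num)⟩
  by_cases h3 : 3 ≤ K.card
  · obtain ⟨c, hc⟩ := exists_center hT K (fun x y h => (CG_adj.1 h).2.2.2) hcl hconn hpart h3
    refine ⟨fun w => if w = c then K.card else 0, ?_, ?_, ?_, ?_⟩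
    · rw [sum_single]
    · intro v hv x hx h
      refine ⟨c, hears_single (by omega) ?_⟩
      have h1 := hserve v x hx h
      have h2 := hc x hx
      have h4 : T.dist v c ≤ T.dist v x + T.dist x c := hC.dist_triangle
      rw [T.dist_comm (u := x) (v := c)] at h4
      omega
    · intro x hx v hv
      refine Or.inl ⟨c, hears_single (by omega) ?_⟩
      have h1 := hnb v x hv
      have h2 := hc x hx
      have h4 : T.dist v c ≤ T.dist v x + T.dist x c := hC.dist_triangle
      rw [T.dist_comm (u := x) (v := c)] at h4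
      omega
    · intro x hx hn
      exact absurd (hiso x hx) hn
  -- two elements
  obtain ⟨x, hx⟩ := hne
  obtain ⟨y, hy, hxy⟩ := hpart x hx
  have hKxy : ∀ z ∈ K, z = x ∨ z = y := by
    intro z hz
    by_contra hzz
    push Not at hzz
    apply h3
    have hsub : ({x, y, z} : Finset V) ⊆ K := by
      intro w hw
      simp only [mem_insert, mem_singleton] at hw
      rcases hw with rfl | rfl | rfl <;> assumption
    have hcard : ({x, y, z} : Finset V).card = 3 := by
      rw [card_insert_of_notMem, card_insert_of_notMem, card_singleton]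
      · simp only [mem_singleton]
        exact fun h => hzz.2 h.symm
      · simp only [mem_insert, mem_singleton, not_or]
        exact ⟨hxy.ne, fun h => hzz.1 h.symm⟩
    rw [← hcard]
    exact card_le_card hsub
  have h2 : 2 ≤ K.card := by
    have hsub : ({x, y} : Finset V) ⊆ K := by
      intro w hw
      simp only [mem_insert, mem_singleton] at hw
      rcases hw with rfl | rfl <;> assumption
    rw [← card_pair hxy.ne]
    exact card_le_card hsub
  -- one of the two serves nobody
  have hone : ∀ a ∈ K, ∀ b ∈ K, T.Adj a b → (∀ z ∈ K, z = a ∨ z = b) →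
      (¬ ∃ v, (∀ x ∈ X, ¬ ClN T x v) ∧ ∀ w ∈ PN T X b, ClN T v w) →
      ∃ g : V → ℕ, ∑ v, g v ≤ K.card ∧
      (∀ v, (∀ x ∈ X, ¬ ClN T x v) → ∀ x ∈ K, (∀ w ∈ PN T X x, ClN T v w) →
        ∃ w, Hears T g v w) ∧
      (∀ x ∈ K, ∀ v, ClN T x v →
        (∃ w, Hears T g v w) ∨ (∃ z ∈ X, ¬ Nis T X z ∧ ClN T z v)) ∧
      (∀ x ∈ K, ¬ Nis T X x → ∀ v, ClN T x v → ∃ w, Hears T g v w) := by
    intro a ha b hb hab hKab hnb'
    refine ⟨fun w => if w = a then 2 else 0, ?_, ?_, ?_, ?_⟩
    · rw [sum_single]; exact h2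
    · intro v hv z hz h
      rcases hKab z hz with rfl | rfl
      · exact ⟨z, hears_single (by norm_num) (hserve v z hz h)⟩
      · exact absurd ⟨v, hv, h⟩ hnb'
    · intro z hz v hv
      refine Or.inl ⟨a, hears_single (by norm_num) ?_⟩
      rcases hKab z hz with rfl | rfl
      · exact (hnb v z hv).trans (by norm_num)
      · have h1 := hnb v z hv
        have h4 : T.dist v a ≤ T.dist v z + T.dist z a := hC.dist_triangle
        have h5 : T.dist z a = 1 := dist_eq_one_iff_adj.2 hab.symm
        omega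
    · intro z hz hn
      exact absurd (hiso z hz) hn
  by_cases hny : ∃ v, (∀ x ∈ X, ¬ ClN T x v) ∧ ∀ w ∈ PN T X y, ClN T v w
  swap
  · exact hone x hx y hy hxy hKxy hny
  by_cases hnx : ∃ v, (∀ x ∈ X, ¬ ClN T x v) ∧ ∀ w ∈ PN T X x, ClN T v w
  swap
  · exact hone y hy x hx hxy.symm (fun z hz => (hKxy z hz).symm) hnx
  obtain ⟨x', hx'⟩ := hX x (hK hx)
  obtain ⟨y', hy'⟩ := hX y (hK hy)
  -- the key point for a pair whose elements both serve somebody
  have hpair : ∀ a ∈ K, ∀ b ∈ K, T.Adj a b → (∀ z ∈ K, z = a ∨ z = b) → ∀ a' ∈ PN T X a,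
      (∃ v, (∀ x ∈ X, ¬ ClN T x v) ∧ ∀ w ∈ PN T X a, ClN T v w) → ∀ v, ClN T a v →
      v = a ∨ v = b ∨ v = a' ∨ (∃ z ∈ X, ¬ Nis T X z ∧ ClN T z v) := by
    intro a ha b hb hab hKab a' ha' hserved v hv
    rcases hv with rfl | hv
    · exact Or.inl rfl
    by_cases hvb : v = b
    · exact Or.inr (Or.inl hvb)
    by_cases hvP : v ∈ PN T X a
    · right; right; left
      obtain ⟨v0, hund, hv0⟩ := hserved
      have hadj : ∀ w ∈ PN T X a, T.Adj a w ∧ T.Adj w v0 := by
        intro w hw
        have h1 := hv0 w hw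
        have hwa : w ≠ a := by
          rintro rfl
          exact hund w (hK ha) (ClN_symm h1)
        have hwv : w ≠ v0 := by
          rintro rfl
          exact hund a (hK ha) hw.1
        rcases hw.1 with h2 | h2
        · exact absurd h2 hwa
        · rcases h1 with h1 | h1
          · exact absurd h1 hwv
          · exact ⟨h2, h1.symm⟩
      have hav : a ≠ v0 := by
        rintro rfl
        exact hund a (hK ha) (Or.inl rfl)
      exact common_unique hT hav (hadj v hvP).1 (hadj v hvP).2 (hadj a' ha').1 (hadj a' ha').2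
    · right; right; right
      have : ∃ s' ∈ X, s' ≠ a ∧ ClN T s' v := by
        by_contra hcon
        push Not at hcon
        exact hvP ⟨Or.inr hv, fun s' hs' hne' => hcon s' hs' hne'⟩
      obtain ⟨s', hs', hsa, hsv⟩ := this
      by_cases hsn : Nis T X s'
      · exfalso
        rcases hsv with h1 | h1
        · -- `v ∈ X`
          have hvX : v ∈ X := h1 ▸ hs'
          have hvK : v ∈ K := by
            refine hcl a ha v ?_
            rw [CG_adj]
            exact ⟨hv.ne, hiso a ha, ⟨hvX, a, hK ha, hv.symm⟩,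
              (dist_eq_one_iff_adj.2 hv).le.trans (by norm_num)⟩
          rcases hKab v hvK with h | h
          · exact hv.ne h.symm
          · exact hvb h
        · have hsK : s' ∈ K := by
            refine hcl a ha s' ?_
            rw [CG_adj]
            refine ⟨hsa.symm, hiso a ha, hsn, ?_⟩
            have h4 : T.dist a s' ≤ T.dist a v + T.dist v s' := hC.dist_triangle
            have h5 : T.dist a v = 1 := dist_eq_one_iff_adj.2 hv
            have h6 : T.dist v s' = 1 := dist_eq_one_iff_adj.2 h1.symm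
            omega
          rcases hKab s' hsK with h | h
          · exact hsa h
          · subst h
            have h5 : T.dist v a = 1 := dist_eq_one_iff_adj.2 hv.symm
            have h6 : T.dist v s' = 1 := dist_eq_one_iff_adj.2 h1.symm
            exact hT.dist_ne_of_adj v hab (h5.trans h6.symm)
      · exact ⟨s', hs', hsn, hsv⟩
  refine ⟨fun w => (if w = x' then 1 else 0) + (if w = y' then 1 else 0), ?_, ?_, ?_, ?_⟩
  · rw [sum_add_distrib, sum_single, sum_single]; exact h2
  · intro v hv z hz h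
    rcases hKxy z hz with rfl | rfl
    · refine ⟨x', by simp, ?_⟩
      have h1 := dist_le_one (h x' hx')
      simp only [if_true]
      omega
    · refine ⟨y', by simp, ?_⟩
      have h1 := dist_le_one (h y' hy')
      simp only [if_true]
      omega
  · have hX1 : ∀ v, T.dist v x' ≤ 1 → ∃ w, Hears T
        (fun w => (if w = x' then 1 else 0) + (if w = y' then 1 else 0)) v w := by
      intro v h
      refine ⟨x', by simp, ?_⟩
      simp only [if_true]
      omega
    have hY1 : ∀ v, T.dist v y' ≤ 1 → ∃ w, Hears T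
        (fun w => (if w = x' then 1 else 0) + (if w = y' then 1 else 0)) v w := by
      intro v h
      refine ⟨y', by simp, ?_⟩
      simp only [if_true]
      omega
    intro z hz v hv
    rcases hKxy z hz with rfl | rfl
    · rcases hpair z hz y hy hxy hKxy x' hx' hnx v hv with h | h | h | h
      · subst h; exact Or.inl (hX1 _ (dist_le_one hx'.1))
      · subst h; exact Or.inl (hY1 _ (dist_le_one hy'.1))
      · subst h; exact Or.inl (hX1 _ (by simp))
      · exact Or.inr h
    · rcases hpair z hz x hx hxy.symm (fun z hz => (hKxy z hz).symm) y' hy' hny v hv with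
        h | h | h | h
      · subst h; exact Or.inl (hY1 _ (dist_le_one hy'.1))
      · subst h; exact Or.inl (hX1 _ (dist_le_one hx'.1))
      · subst h; exact Or.inl (hY1 _ (by simp))
      · exact Or.inr h
  · intro z hz hn
    exact absurd (hiso z hz) hn

/-- From a maximal irredundant set to a covering family of balls of the same total radius. -/
theorem core [Fintype V] {T : SimpleGraph V} (hT : T.IsTree) (X : Finset V)
    (hX : MaxIrrSet T X) :
    ∃ f : V → ℕ, (∀ v, ∃ w, Hears T f v w) ∧ ∑ v, f v ≤ X.card := by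
  classical
  set mk := (CG T X).connectedComponentMk with hmk
  have hloc : ∀ c : (CG T X).ConnectedComponent, ∃ g : V → ℕ,
      ∑ v, g v ≤ (X.filter fun x => mk x = c).card ∧
      (∀ v, (∀ x ∈ X, ¬ ClN T x v) → ∀ x ∈ X.filter (fun x => mk x = c),
        (∀ w ∈ PN T X x, ClN T v w) → ∃ w, Hears T g v w) ∧
      (∀ x ∈ X.filter (fun x => mk x = c), ∀ v, ClN T x v →
        (∃ w, Hears T g v w) ∨ (∃ z ∈ X, ¬ Nis T X z ∧ ClN T z v)) ∧
      (∀ x ∈ X.filter (fun x => mk x = c), ¬ Nis T X x → ∀ v, ClN T x v →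
        ∃ w, Hears T g v w) := by
    intro c
    refine local_claim hT X hX.1 _ (filter_subset _ _) ?_ ?_
    · intro x hx y hxy
      rw [mem_filter] at hx ⊢
      refine ⟨(CG_adj.1 hxy).2.2.1.1, ?_⟩
      rw [← hx.2]
      exact (ConnectedComponent.eq.2 hxy.reachable).symm
    · intro x hx y hy
      rw [mem_filter] at hx hy
      exact ConnectedComponent.eq.1 (hx.2.trans hy.2.symm)
  choose g hg1 hg2 hg3 hg4 using hloc
  have hle : ∀ c ∈ X.image mk, ∀ w, g c w ≤ ∑ c ∈ X.image mk, g c w := fun c hc w =>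
    single_le_sum (f := fun c => g c w) (fun _ _ => Nat.zero_le _) hc
  have hup : ∀ c ∈ X.image mk, ∀ v, (∃ w, Hears T (g c) v w) →
      ∃ w, Hears T (fun w => ∑ c ∈ X.image mk, g c w) v w := by
    rintro c hc v ⟨w, h1, h2⟩
    exact ⟨w, h1.trans_le (hle c hc w), h2.trans (hle c hc w)⟩
  refine ⟨fun w => ∑ c ∈ X.image mk, g c w, fun v => ?_, ?_⟩
  · by_cases hd : ∃ x ∈ X, ClN T x v
    · obtain ⟨x, hx, hxv⟩ := hd
      rcases hg3 (mk x) x (mem_filter.2 ⟨hx, rfl⟩) v hxv with h | ⟨z, hz, hzn, hzv⟩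
      · exact hup _ (mem_image_of_mem _ hx) v h
      · exact hup _ (mem_image_of_mem _ hz) v (hg4 (mk z) z (mem_filter.2 ⟨hz, rfl⟩) hzn v hzv)
    · push Not at hd
      have hvX : v ∉ X := fun h => hd v h (Or.inl rfl)
      have hni := hX.2 (insert v X) (ssubset_insert hvX)
      unfold IrrSet at hni
      push Not at hni
      obtain ⟨s, hs, hsP⟩ := hni
      have hPv : v ∈ PN T (insert v X) v := by
        refine ⟨Or.inl rfl, fun s' hs' hne => ?_⟩
        rcases mem_insert.1 hs' with h | h
        · exact absurd h hne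
        · exact hd s' h
      have hsv : s ≠ v := by
        rintro rfl
        rw [hsP] at hPv
        exact hPv
      have hsX : s ∈ X := (mem_insert.1 hs).resolve_left hsv
      refine hup _ (mem_image_of_mem _ hsX) v
        (hg2 (mk s) v hd s (mem_filter.2 ⟨hsX, rfl⟩) fun w hw => ?_)
      by_contra hvw
      have : w ∈ PN T (insert v X) s := by
        refine ⟨hw.1, fun s' hs' hne => ?_⟩
        rcases mem_insert.1 hs' with h | h
        · rw [h]; exact hvw
        · exact hw.2 s' h hne
      rw [hsP] at this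
      exact this
  · rw [sum_comm, card_eq_sum_card_image mk X]
    exact sum_le_sum fun c _ => hg1 c

/-! ### The broadcast parameters -/

section final
variable [Fintype V] {T : SimpleGraph V}

theorem dist_le_ecc (v w : V) : T.dist v w ≤ ecc T v :=
  le_sup (f := fun w => T.dist v w) (mem_univ w)

theorem ecc_le_diameter (v : V) : ecc T v ≤ diameter T :=
  le_sup (f := fun v => ecc T v) (mem_univ v)

theorem one_le_ecc (hC : T.Connected) (h2 : 2 ≤ Fintype.card V) (v : V) : 1 ≤ ecc T v := by
  have : Nontrivial V := Fintype.one_lt_card_iff_nontrivial.1 h2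
  obtain ⟨w, hw⟩ := exists_ne v
  exact (hC.pos_dist_of_ne hw.symm).trans_le (dist_le_ecc v w)

/-- Truncating a covering family gives a dominating broadcast. -/
theorem exists_domB (hC : T.Connected) (h2 : 2 ≤ Fintype.card V) (f : V → ℕ)
    (hf : ∀ v, ∃ w, Hears T f v w) : ∃ g : V → ℕ, DomB T g ∧ cost g ≤ ∑ v, f v := by
  refine ⟨fun v => min (f v) (ecc T v), ⟨fun v => ⟨?_, min_le_right _ _⟩, fun w => ?_⟩, ?_⟩
  · exact (min_le_right _ _).trans (ecc_le_diameter v)
  · obtain ⟨v, h1, h3⟩ := hf w
    refine ⟨v, lt_min h1 (one_le_ecc hC h2 v), le_min h3 ?_⟩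
    rw [T.dist_comm]
    exact dist_le_ecc v w
  · exact sum_le_sum fun v _ => min_le_left _ _

/-- A dominating broadcast of minimum cost is a maximal irredundant broadcast. -/
theorem min_domB_maxIrrB (f : V → ℕ) (hf : DomB T f)
    (hmin : ∀ g : V → ℕ, DomB T g → cost f ≤ cost g) : MaxIrrB T f := by
  classical
  refine ⟨hf.1, fun v hv => ?_, fun g _ hfg hlt hI => ?_⟩
  · -- decreasing `f v` destroys domination
    have hnd : ¬ DomB T (Function.update f v (f v - 1)) := by
      intro h
      have h1 := hmin _ h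
      have h4 : cost (Function.update f v (f v - 1)) < cost f := by
        unfold cost
        refine sum_lt_sum (fun i _ => ?_) ⟨v, mem_univ v, ?_⟩
        · by_cases hi : i = v
          · subst hi; simp
          · simp [Function.update_of_ne hi]
        · simp only [Function.update_self]; omega
      omega
    have hB : IsBroadcast T (Function.update f v (f v - 1)) := by
      intro i
      by_cases hi : i = v
      · subst hi
        rw [Function.update_self]
        have := hf.1 i
        omega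
      · rw [Function.update_of_ne hi]; exact hf.1 i
    have : ∃ w, ∀ x, ¬ Hears T (Function.update f v (f v - 1)) w x := by
      by_contra hcon
      push Not at hcon
      exact hnd ⟨hB, hcon⟩
    obtain ⟨w, hw⟩ := this
    refine ⟨w, ?_, hw⟩
    obtain ⟨x, hx1, hx2⟩ := hf.2 w
    by_cases hxv : x = v
    · subst hxv; exact hx2
    · exfalso
      apply hw x
      unfold Hears
      rw [Function.update_of_ne hxv]
      exact ⟨hx1, hx2⟩
  · obtain ⟨w, hw⟩ := hlt
    obtain ⟨u, -, hu2⟩ := hI w (by omega)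
    obtain ⟨x, hx1, hx2⟩ := hf.2 u
    apply hu2 x
    unfold Hears
    by_cases hxw : x = w
    · subst hxw
      rw [Function.update_self]
      constructor <;> omega
    · rw [Function.update_of_ne hxw]
      have := hfg x
      constructor <;> omega

theorem exists_maxIrrSet (T : SimpleGraph V) : ∃ S : Finset V, MaxIrrSet T S := by
  classical
  have h0 : (univ.filter fun S : Finset V => IrrSet T S).Nonempty :=
    ⟨∅, mem_filter.2 ⟨mem_univ _, by intro s hs; simp at hs⟩⟩
  obtain ⟨S, hS, hmax⟩ := exists_max_image _ (fun S : Finset V => S.card) h0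
  refine ⟨S, (mem_filter.1 hS).2, fun S' hSS' hI => ?_⟩
  have h1 := hmax S' (mem_filter.2 ⟨mem_univ _, hI⟩)
  have h2 := card_lt_card hSS'
  omega

theorem main (hT : T.IsTree) (h2 : 2 ≤ Fintype.card V) :
    (∃ S : Finset V, MaxIrrSet T S ∧ S.card = ir T) ∧
    (∃ f : V → ℕ, MaxIrrB T f ∧ cost f = irb T) ∧
    (∃ f : V → ℕ, DomB T f ∧ cost f = gammab T) ∧
    irb T ≤ gammab T ∧ gammab T ≤ ir T := by
  have hC := hT.connected
  obtain ⟨S0, hS0⟩ := exists_maxIrrSet T
  have hir : ∃ S : Finset V, MaxIrrSet T S ∧ S.card = ir T :=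
    Nat.sInf_mem (s := {k | ∃ S : Finset V, MaxIrrSet T S ∧ S.card = k}) ⟨_, S0, hS0, rfl⟩
  obtain ⟨X, hX, hXc⟩ := hir
  obtain ⟨f, hf1, hf2⟩ := core hT X hX
  obtain ⟨g, hg, hgc⟩ := exists_domB hC h2 f hf1
  have hgam : ∃ f : V → ℕ, DomB T f ∧ cost f = gammab T :=
    Nat.sInf_mem (s := {k | ∃ f : V → ℕ, DomB T f ∧ cost f = k}) ⟨_, g, hg, rfl⟩
  have hgle : gammab T ≤ ir T := by
    have : gammab T ≤ cost g := Nat.sInf_le ⟨g, hg, rfl⟩
    omega
  obtain ⟨h, hh, hhc⟩ := hgam
  have hmax : MaxIrrB T h := by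
    refine min_domB_maxIrrB h hh fun g' hg' => ?_
    rw [hhc]
    exact Nat.sInf_le ⟨g', hg', rfl⟩
  refine ⟨⟨X, hX, hXc⟩, ?_, ⟨h, hh, hhc⟩, ?_, hgle⟩
  · exact Nat.sInf_mem (s := {k | ∃ f : V → ℕ, MaxIrrB T f ∧ cost f = k}) ⟨_, h, hmax, rfl⟩
  · exact Nat.sInf_le ⟨h, hmax, hhc⟩

end final

end Pool.Agent.R155.IrTree
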